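import Mathlib
import Pool.Agent.Lib.MP_ec260d_nt.Lam
import Pool.Agent.Lib.MP_ec260d_ntB.Defs

/-!
# Definitions for theorem D (all shifts): the inverse of the function `LL`

`LL t = v log v - v` with `v = t/(2π)`.  The inverse function is `s ↦ 2π exp (1 + W(s/e))`, `W` the Lambert function (`lam`).
-/

namespace Pool.Agent.Lib.MP_ec260d_ntD

open Real

noncomputable section

/-- `log v` for the solution `v` of `v log v - v = s` -/
def omv (s : ℝ) : ℝ := 1 + Pool.Agent.Lib.MP_ec260d_nt.lam (s / Real.exp 1)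

/-- the solution `v ≥ e` of `v log v - v = s` (for `s ≥ 0`) -/
def Vv (s : ℝ) : ℝ := Real.exp (omv s)

/-- the polynomials of the derivatives of `1 / omv` -/
def Pn : ℕ → Polynomial ℝ
  | 0 => Polynomial.X
  | (n + 1) => Polynomial.C (n : ℝ) * Polynomial.X * Pn n + Polynomial.X ^ 3 * Polynomial.derivative (Pn n)

/-- the `n`-th derivative of `1 / omv` -/
def psn (n : ℕ) (s : ℝ) : ℝ := (-1) ^ n * (Vv s)⁻¹ ^ n * (Pn n).eval ((omv s)⁻¹)

/-- the height `t'` with `LL t' = LL t + m` -/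
def Ph (m t : ℝ) : ℝ := 2 * Real.pi * Vv (Pool.Agent.Lib.MP_ec260d_ntB.LL t + m)

/-- the derivative of `Ph m` at `t` -/
def slp (m t : ℝ) : ℝ := Real.log (t / (2 * Real.pi)) / omv (Pool.Agent.Lib.MP_ec260d_ntB.LL t + m)

/-- normalized derivatives of the function `1 / omv`, compared with the logarithm (`ω₁ = omv S`) -/
def Gi (ω₁ S : ℝ) (i : ℕ) (y : ℝ) : ℝ :=
  if i = 0 then ω₁ ^ 2 * (1 / ω₁ - psn 0 (S * y)) else -(ω₁ ^ 2 * S ^ i * psn i (S * y))

/-- the polynomial `∑ ρ_c ∏_{c' ≠ c} (X - μ_c')` -/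
def QQ {n : ℕ} (μ ρ : Fin (n + 1) → ℝ) : Polynomial ℝ :=
  ∑ c : Fin (n + 1), Polynomial.C (ρ c) * ∏ c' ∈ Finset.univ.erase c, (Polynomial.X - Polynomial.C (μ c'))

/-- the sum of the absolute values of the coefficients up to degree `n` -/
def nq (Q : Polynomial ℝ) (n : ℕ) : ℝ := ∑ i ∈ Finset.range (n + 1), |Q.coeff i|

/-- derivatives of order `i ≥ 1` of `x ↦ -∑ ρ_c G(x + μ_c)` -/
def Ei (S : ℝ) {n : ℕ} (μ ρ : Fin (n + 1) → ℝ) (i : ℕ) (x : ℝ) : ℝ :=
  -∑ c : Fin (n + 1), ρ c * Gi (omv S) S i (x + μ c)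

end

end Pool.Agent.Lib.MP_ec260d_ntD
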