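import Mathlib
import Pool.Agent.Lib.MP_ec260d_ntD.R.Defs

/-!
# JOB R/Psi: the inverse function of `v log v - v` (about 180 lines)

Facts on `lam` in `Lib/MP_ec260d_nt/Lam.lean`: `lam_spec`, `lam_unique`, `lam_zero`, `lam_strictMonoOn`, `lam_pos`.  For `s ≥ 0` put `y = lam (s/e) ≥ 0`, `y exp y = s/e`; `omv s = 1 + y`, `Vv s = e exp y`, so `Vv s * omv s - Vv s = e exp y * y = s`.
`LL_vv`: `LL (2π v) = v log v - v` and `log (Vv s) = omv s`.  `vv_LL`: for `v = t/(2π) ≥ e` put `y = log v - 1 ≥ 0`; `LL t = v (log v - 1) = e exp y * y`, so `lam (LL t/e) = y` (`lam_unique`).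
`omv_mono`, `vv_mono`: `lam` is strictly increasing.  Derivatives: `lam` is analytic at `s/e > -1/e`; differentiate the relation `Vv s * omv s - Vv s = s` near `s > 0` (it holds for all `s > -1`, as `lam_spec` holds for `x > -exp (-1)`): with `Vv = exp omv`: `Vv' = Vv omv'`, so `Vv' omv + Vv omv' - Vv' = 1`, i.e. `Vv omv' omv = 1`.
So `omv' = 1/(Vv omv)` and `Vv' = 1/omv`.  `psn_deriv`: product and chain rule: with `w = 1/omv`: `w' = - w^3/Vv`, `(Vv^{-n})' = -n Vv^{-n-1} w`; `(Vv^{-n} P(w))' = - Vv^{-n-1} (n w P(w) + w^3 P'(w))`.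
`Pn_low`: induction: `P_1 = X^3`; `n X * X^(n+2) (a + X R) + X^3 ((n+2) X^(n+1) (a + X R) + X^(n+2) (R + X R'))` is `X^(n+3) (n a + X (...))`.
-/

namespace Pool.Agent.Lib.MP_ec260d_ntD

open Real
open Pool.Agent.Lib.MP_ec260d_ntB (LL)

private theorem psi_mem {s : ℝ} (hs : -1 < s) : -Real.exp (-1) < s / Real.exp 1 := by
  rw [lt_div_iff₀ (Real.exp_pos 1), neg_mul, ← Real.exp_add]
  have : Real.exp (-1 + 1) = 1 := by
    rw [neg_add_cancel, Real.exp_zero]
  rw [this]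
  exact hs

private theorem psi_rel {s : ℝ} (hs : -1 < s) : Vv s * omv s - Vv s = s := by
  obtain ⟨_, h2, _⟩ := Pool.Agent.Lib.MP_ec260d_nt.lam_spec (psi_mem hs)
  unfold Vv omv
  set y := Pool.Agent.Lib.MP_ec260d_nt.lam (s / Real.exp 1) with hy
  rw [Real.exp_add]
  have h3 : s = Real.exp 1 * (y * Real.exp y) := by
    rw [h2, mul_div_cancel₀ _ (Real.exp_pos 1).ne']
  have h4 : Real.exp 1 * Real.exp y * (1 + y) - Real.exp 1 * Real.exp y = Real.exp 1 * (y * Real.exp y) := by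
    ring
  rw [h4]
  exact h3.symm

theorem omv_ge {s : ℝ} (hs : 0 ≤ s) : 1 ≤ omv s := by
  unfold omv
  rcases hs.eq_or_lt with h | h
  · rw [← h, zero_div, Pool.Agent.Lib.MP_ec260d_nt.lam_zero]
    norm_num
  · have := Pool.Agent.Lib.MP_ec260d_nt.lam_pos (div_pos h (Real.exp_pos 1))
    linarith

theorem vv_pos (s : ℝ) : 0 < Vv s := Real.exp_pos _

theorem log_vv (s : ℝ) : Real.log (Vv s) = omv s := Real.log_exp _

theorem vv_eq {s : ℝ} (hs : 0 ≤ s) : Vv s * omv s - Vv s = s := psi_rel (by linarith)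

theorem LL_vv {s : ℝ} (hs : 0 ≤ s) : LL (2 * Real.pi * Vv s) = s := by
  unfold LL
  have h : 2 * Real.pi * Vv s / (2 * Real.pi) = Vv s :=
    mul_div_cancel_left₀ _ (by positivity)
  rw [h, log_vv]
  exact vv_eq hs

theorem vv_LL {t : ℝ} (ht : 2 * Real.pi * Real.exp 1 ≤ t) :
    0 ≤ LL t ∧ Vv (LL t) = t / (2 * Real.pi) ∧ omv (LL t) = Real.log (t / (2 * Real.pi)) := by
  have hpi : 0 < 2 * Real.pi := by positivity
  set v : ℝ := t / (2 * Real.pi) with hv
  have hve : Real.exp 1 ≤ v := by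
    rw [hv, le_div_iff₀ hpi]
    linarith
  have hv0 : 0 < v := lt_of_lt_of_le (Real.exp_pos 1) hve
  have hlog : 1 ≤ Real.log v := (Real.le_log_iff_exp_le hv0).2 hve
  have hLL : LL t = v * (Real.log v - 1) := by
    unfold LL
    rw [← hv]
    ring
  have hy : (-1 : ℝ) < Real.log v - 1 := by linarith
  have hexp : Real.exp (Real.log v - 1) = v / Real.exp 1 := by
    rw [Real.exp_sub, Real.exp_log hv0]
  have hlam : Pool.Agent.Lib.MP_ec260d_nt.lam (LL t / Real.exp 1) = Real.log v - 1 := by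
    have h1 : LL t / Real.exp 1 = (Real.log v - 1) * Real.exp (Real.log v - 1) := by
      rw [hexp, hLL]
      ring
    rw [h1]
    exact Pool.Agent.Lib.MP_ec260d_nt.lam_unique hy
  have hom : omv (LL t) = Real.log v := by
    unfold omv
    rw [hlam]
    ring
  refine ⟨?_, ?_, hom⟩
  · rw [hLL]
    exact mul_nonneg hv0.le (by linarith)
  · unfold Vv
    rw [hom, Real.exp_log hv0]

theorem omv_lt {s s' : ℝ} (hs : 0 ≤ s) (h : s < s') : omv s < omv s' := by
  have h1 := Pool.Agent.Lib.MP_ec260d_nt.lam_strictMonoOn (psi_mem (s := s) (by linarith))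
    (psi_mem (s := s') (by linarith)) (div_lt_div_of_pos_right h (Real.exp_pos 1))
  unfold omv
  linarith

theorem vv_lt {s s' : ℝ} (hs : 0 ≤ s) (h : s < s') : Vv s < Vv s' :=
  Real.exp_lt_exp.2 (omv_lt hs h)

theorem omv_tendsto : Filter.Tendsto omv Filter.atTop Filter.atTop := by
  unfold omv
  refine Filter.tendsto_atTop_add_const_left _ _ ?_
  exact Pool.Agent.Lib.MP_ec260d_nt.lam_tendsto.comp
    (Filter.tendsto_id.atTop_div_const (Real.exp_pos 1))

theorem omv_deriv {s : ℝ} (hs : 0 ≤ s) : HasDerivAt omv (1 / (Vv s * omv s)) s := by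
  obtain ⟨_, _, h3⟩ := Pool.Agent.Lib.MP_ec260d_nt.lam_spec (psi_mem (s := s) (by linarith))
  have hd1 : DifferentiableAt ℝ omv s := by
    unfold omv
    have hq : DifferentiableAt ℝ (fun s : ℝ => s / Real.exp 1) s := by fun_prop
    exact (h3.differentiableAt.comp s hq).const_add 1
  have hd := hd1.hasDerivAt
  set w := deriv omv s with hw
  have hV : HasDerivAt Vv (Real.exp (omv s) * w) s := hd.exp
  have hF := (hV.mul hd).sub hV
  have hev : (fun s : ℝ => Vv s * omv s - Vv s) =ᶠ[nhds s] fun s => s := by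
    have hn : Set.Ioi (-1 : ℝ) ∈ nhds s := Ioi_mem_nhds (by linarith)
    filter_upwards [hn] with x hx
    exact psi_rel hx
  have h1 : HasDerivAt (fun s : ℝ => Vv s * omv s - Vv s) 1 s :=
    (hasDerivAt_id s).congr_of_eventuallyEq hev
  have h2 := hF.unique h1
  have h4 : w * (Vv s * omv s) = 1 := by
    have e : Real.exp (omv s) = Vv s := rfl
    rw [e] at h2
    linarith
  have hp : 0 < Vv s * omv s := mul_pos (vv_pos s) (by linarith [omv_ge hs])
  have h5 : w = 1 / (Vv s * omv s) := by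
    rw [eq_div_iff hp.ne']
    exact h4
  rw [← h5]
  exact hd

theorem vv_deriv {s : ℝ} (hs : 0 ≤ s) : HasDerivAt Vv (1 / omv s) s := by
  have h := (omv_deriv hs).exp
  have e : Real.exp (omv s) * (1 / (Vv s * omv s)) = 1 / omv s := by
    have e1 : Real.exp (omv s) = Vv s := rfl
    have h1 := (vv_pos s).ne'
    have h2 : omv s ≠ 0 := by
      have := omv_ge hs
      linarith
    rw [e1]
    field_simp
  rw [e] at h
  exact h

private theorem psi_pow (n : ℕ) {s : ℝ} (hs : 0 ≤ s) :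
    HasDerivAt (fun s => (Vv s)⁻¹ ^ n) (-((n : ℝ) * (omv s)⁻¹ * (Vv s)⁻¹ ^ (n + 1))) s := by
  have h1 := (vv_deriv hs).inv (vv_pos s).ne'
  have h2 := h1.pow n
  have e : (n : ℝ) * (Vv s)⁻¹ ^ (n - 1) * (-(1 / omv s) / Vv s ^ 2) =
      -((n : ℝ) * (omv s)⁻¹ * (Vv s)⁻¹ ^ (n + 1)) := by
    rcases n with _ | n
    · rw [Nat.cast_zero]
      ring
    · have e1 : n + 1 - 1 = n := rfl
      rw [e1, one_div, div_eq_mul_inv, ← inv_pow, pow_succ (Vv s)⁻¹ (n + 1), pow_succ (Vv s)⁻¹ n]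
      ring
  rw [← e]
  exact h2

theorem psn_deriv (n : ℕ) {s : ℝ} (hs : 0 ≤ s) : HasDerivAt (psn n) (psn (n + 1) s) s := by
  have hom : omv s ≠ 0 := by
    have := omv_ge hs
    linarith
  have hV := (vv_pos s).ne'
  have h1 := psi_pow n hs
  have h2 : HasDerivAt (fun s => (omv s)⁻¹) (-(((omv s)⁻¹) ^ 3 * (Vv s)⁻¹)) s := by
    have h := (omv_deriv hs).inv hom
    have e : -(1 / (Vv s * omv s)) / omv s ^ 2 = -(((omv s)⁻¹) ^ 3 * (Vv s)⁻¹) := by
      field_simp
    rw [e] at h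
    exact h
  have h3 : HasDerivAt (fun s => (Pn n).eval ((omv s)⁻¹))
      ((Polynomial.derivative (Pn n)).eval ((omv s)⁻¹) * (-(((omv s)⁻¹) ^ 3 * (Vv s)⁻¹))) s :=
    HasDerivAt.comp (h₂ := fun x : ℝ => (Pn n).eval x) s ((Pn n).hasDerivAt ((omv s)⁻¹)) h2
  have h4 := ((h1.const_mul ((-1 : ℝ) ^ n)).mul h3)
  have e : (-1 : ℝ) ^ n * -((n : ℝ) * (omv s)⁻¹ * (Vv s)⁻¹ ^ (n + 1)) * (Pn n).eval ((omv s)⁻¹) +
      (-1 : ℝ) ^ n * (Vv s)⁻¹ ^ n *
        ((Polynomial.derivative (Pn n)).eval ((omv s)⁻¹) * (-(((omv s)⁻¹) ^ 3 * (Vv s)⁻¹))) =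
      psn (n + 1) s := by
    unfold psn
    have e1 : (Pn (n + 1)).eval ((omv s)⁻¹) = (n : ℝ) * (omv s)⁻¹ * (Pn n).eval ((omv s)⁻¹) +
        ((omv s)⁻¹) ^ 3 * (Polynomial.derivative (Pn n)).eval ((omv s)⁻¹) := by
      show (Polynomial.C (n : ℝ) * Polynomial.X * Pn n +
        Polynomial.X ^ 3 * Polynomial.derivative (Pn n)).eval ((omv s)⁻¹) = _
      rw [Polynomial.eval_add, Polynomial.eval_mul, Polynomial.eval_mul, Polynomial.eval_mul,
        Polynomial.eval_C, Polynomial.eval_X, Polynomial.eval_pow, Polynomial.eval_X]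
    rw [e1, pow_succ (-1 : ℝ) n, pow_succ (Vv s)⁻¹ n]
    ring
  rw [← e]
  exact h4

theorem psn_zero (s : ℝ) : psn 0 s = 1 / omv s := by
  unfold psn
  have e : Pn 0 = Polynomial.X := rfl
  rw [e, Polynomial.eval_X, pow_zero, pow_zero, one_mul, one_mul, one_div]

theorem Pn_low (n : ℕ) (hn : 1 ≤ n) : ∃ R : Polynomial ℝ,
    Pn n = Polynomial.X ^ (n + 2) * (Polynomial.C (((n - 1).factorial : ℕ) : ℝ) + Polynomial.X * R) := by
  induction n, hn using Nat.le_induction with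
  | base =>
    refine ⟨0, ?_⟩
    show Polynomial.C ((0 : ℕ) : ℝ) * Polynomial.X * Polynomial.X +
      Polynomial.X ^ 3 * Polynomial.derivative Polynomial.X = _
    rw [Polynomial.derivative_X]
    simp
  | succ n hn ih =>
    obtain ⟨R, hR⟩ := ih
    refine ⟨Polynomial.C (n : ℝ) * R + Polynomial.C ((n : ℝ) + 2) *
      (Polynomial.C (((n - 1).factorial : ℕ) : ℝ) + Polynomial.X * R) +
      Polynomial.X * (R + Polynomial.X * Polynomial.derivative R), ?_⟩
    have e0 : Pn (n + 1) = Polynomial.C (n : ℝ) * Polynomial.X * Pn n +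
      Polynomial.X ^ 3 * Polynomial.derivative (Pn n) := rfl
    have e1 : Polynomial.derivative (Pn n) = Polynomial.C ((n : ℝ) + 2) * Polynomial.X ^ (n + 1) *
        (Polynomial.C (((n - 1).factorial : ℕ) : ℝ) + Polynomial.X * R) +
        Polynomial.X ^ (n + 2) * (R + Polynomial.X * Polynomial.derivative R) := by
      rw [hR, Polynomial.derivative_mul, Polynomial.derivative_X_pow, Polynomial.derivative_add,
        Polynomial.derivative_C, Polynomial.derivative_mul, Polynomial.derivative_X]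
      have e2 : ((n + 2 : ℕ) : ℝ) = (n : ℝ) + 2 := by push_cast; ring
      have e3 : n + 2 - 1 = n + 1 := rfl
      rw [e2, e3]
      ring
    have e4 : (((n + 1 - 1).factorial : ℕ) : ℝ) = (n : ℝ) * (((n - 1).factorial : ℕ) : ℝ) := by
      obtain ⟨k, rfl⟩ : ∃ k, n = k + 1 := ⟨n - 1, by omega⟩
      have e5 : k + 1 + 1 - 1 = k + 1 := rfl
      have e6 : k + 1 - 1 = k := rfl
      rw [e5, e6, Nat.factorial_succ]
      push_cast
      ring
    rw [e0, e1, hR, e4, Polynomial.C_mul]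
    ring

end Pool.Agent.Lib.MP_ec260d_ntD
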