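import Mathlib
import Pool.Agent.Lib.MP_ec260d_ntD.R.Psi

/-!
# JOB R/Gest: the normalized derivatives are close to those of the logarithm (about 180 lines)

`G_deriv`: chain rule and `psn_deriv` (`S * y ≥ 0`; for `i = 0` the derivative of `ω₁² (1/ω₁ - psn 0 (S y))` is `-ω₁² S psn 1 (S y) = Gi ω₁ S 1 y`).
`G_est`: let `ω = omv (S y)`, `w = 1/ω`, `V = Vv (S y)`, `ω₁ = omv S`.  By `vv_eq` `V (ω - 1) = S y`, so `S^i V^(-i) = (ω - 1)^i y^(-i)` and by `Pn_low` `P_i(w) = w^(i+2) ((i-1)! + w R(w))`, hence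
`Gi = -(ω₁² (-1)^i (ω - 1)^i y^(-i) w^(i+2) ((i-1)! + w R w)) = (-1)^(i+1) y^(-i) (ω₁ w)² (1 - w)^i ((i-1)! + w R(w))`.
For `1 ≤ y ≤ X`: `ω₁ ≤ ω` and `Vv (S y) ≤ X Vv S` (since `V (ω - 1) = S y = y Vv S (ω₁ - 1)` and `ω ≥ ω₁`, if `ω₁ > 1`), so `0 ≤ ω - ω₁ ≤ log X`.  As `ω₁ → ∞` with `S` (`omv_tendsto`): `(ω₁ w)² = 1 + O(1/ω₁)`, `(1 - w)^i = 1 + O(1/ω₁)`, `w R(w) = O(1/ω₁)` (`R` bounded on `[0,1]`), `y^(-i) ≤ 1`.  Finitely many `i ≤ n`.
-/

namespace Pool.Agent.Lib.MP_ec260d_ntD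

open Real

private theorem Gest_R (i : ℕ) : ∃ M : ℝ, 0 ≤ M ∧ (1 ≤ i → ∀ w : ℝ, 0 ≤ w → w ≤ 1 →
    ∃ r : ℝ, |r| ≤ M ∧
      (Pn i).eval w = w ^ (i + 2) * ((((i - 1).factorial : ℕ) : ℝ) + w * r)) := by
  rcases Nat.eq_zero_or_pos i with h | h
  · exact ⟨0, le_rfl, fun h1 => by omega⟩
  · obtain ⟨R, hR⟩ := Pn_low i h
    obtain ⟨M, hM⟩ := (isCompact_Icc (a := (0 : ℝ)) (b := 1)).exists_bound_of_continuousOn
      R.continuous.continuousOn
    refine ⟨M, (norm_nonneg _).trans (hM 0 ⟨le_rfl, zero_le_one⟩), fun _ w h0 h1 =>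
      ⟨R.eval w, hM w ⟨h0, h1⟩, ?_⟩⟩
    rw [hR, Polynomial.eval_mul, Polynomial.eval_pow, Polynomial.eval_X, Polynomial.eval_add,
      Polynomial.eval_mul, Polynomial.eval_X, Polynomial.eval_C]

private theorem Gest_prod {A B a r w L M : ℝ} {i : ℕ} (hA0 : 0 ≤ A) (hA1 : A ≤ 1) (hB0 : 0 ≤ B)
    (hB1 : B ≤ 1) (ha : 0 ≤ a) (hw : 0 ≤ w) (hr : |r| ≤ M) (hA : 1 - A ≤ 2 * L * w)
    (hB : 1 - B ≤ i * w) :
    |A * B * (a + w * r) - a| ≤ (a * (2 * L + i) + M) * w := by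
  have h1 : A * B * (a + w * r) - a = -(a * ((1 - A) + A * (1 - B))) + A * B * (w * r) := by ring
  have h2 : A * (1 - B) ≤ 1 - B := by
    have h3 : 0 ≤ 1 - B := by linarith
    nlinarith
  have h4 : 0 ≤ A * (1 - B) := mul_nonneg hA0 (by linarith)
  have h5 : |a * ((1 - A) + A * (1 - B))| ≤ a * ((2 * L + i) * w) := by
    rw [abs_of_nonneg (mul_nonneg ha (by linarith))]
    refine mul_le_mul_of_nonneg_left ?_ ha
    linarith
  have h6 : |A * B * (w * r)| ≤ M * w := by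
    rw [abs_mul, abs_mul w r, abs_of_nonneg (mul_nonneg hA0 hB0), abs_of_nonneg hw]
    have h7 : A * B ≤ 1 := mul_le_one₀ hA1 hB0 hB1
    have h8 : 0 ≤ w * |r| := mul_nonneg hw (abs_nonneg r)
    have h9 : A * B * (w * |r|) ≤ 1 * (w * |r|) := mul_le_mul_of_nonneg_right h7 h8
    have h10 : w * |r| ≤ w * M := mul_le_mul_of_nonneg_left hr hw
    linarith
  rw [h1]
  refine (abs_add_le _ _).trans ?_
  rw [abs_neg]
  have h11 : (a * (2 * L + i) + M) * w = a * ((2 * L + i) * w) + M * w := by ring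
  rw [h11]
  exact add_le_add h5 h6

theorem G_deriv (ω₁ S : ℝ) (hS : 0 ≤ S) (i : ℕ) (y : ℝ) (hy : 0 ≤ y) :
    HasDerivAt (Gi ω₁ S i) (Gi ω₁ S (i + 1) y) y := by
  have hSy : 0 ≤ S * y := mul_nonneg hS hy
  have h1 : HasDerivAt (fun x : ℝ => psn i (S * x)) (psn (i + 1) (S * y) * (S * 1)) y :=
    (psn_deriv i hSy).comp y ((hasDerivAt_id' y).const_mul S)
  rcases Nat.eq_zero_or_pos i with h | h
  · subst h
    have e1 : Gi ω₁ S 0 = fun x : ℝ => ω₁ ^ 2 * (1 / ω₁ - psn 0 (S * x)) := by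
      funext x
      exact if_pos rfl
    rw [e1]
    refine ((h1.const_sub (1 / ω₁)).const_mul (ω₁ ^ 2)).congr_deriv ?_
    unfold Gi
    rw [if_neg (by omega)]
    ring
  · have e1 : Gi ω₁ S i = fun x : ℝ => -(ω₁ ^ 2 * S ^ i * psn i (S * x)) := by
      funext x
      exact if_neg (by omega)
    rw [e1]
    refine ((h1.const_mul (ω₁ ^ 2 * S ^ i)).neg).congr_deriv ?_
    unfold Gi
    rw [if_neg (by omega)]
    ring

theorem G_est (n : ℕ) (X : ℝ) (hX : 1 ≤ X) : ∃ C S₀ : ℝ, 0 ≤ C ∧ 1 ≤ S₀ ∧ ∀ S : ℝ, S₀ ≤ S → ∀ i : ℕ, 1 ≤ i → i ≤ n →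
    ∀ y : ℝ, 1 ≤ y → y ≤ X →
      |Gi (omv S) S i y - (-1) ^ (i + 1) * (((i - 1).factorial : ℕ) : ℝ) * (y⁻¹) ^ i| ≤ C / omv S := by
  choose M hM0 hM using Gest_R
  have hlogX : 0 ≤ Real.log X := Real.log_nonneg hX
  have hMs : 0 ≤ ∑ j ∈ Finset.range (n + 1), M j := Finset.sum_nonneg fun j _ => hM0 j
  refine ⟨(n.factorial : ℝ) * (2 * Real.log X + n) + ∑ j ∈ Finset.range (n + 1), M j, 1,
    by positivity, le_rfl, ?_⟩
  intro S hS i hi hin y hy hyX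
  have hS0 : 0 < S := by linarith
  have hy0 : 0 < y := by linarith
  have hSy : 0 < S * y := mul_pos hS0 hy0
  have hω₁ : 1 ≤ omv S := omv_ge hS0.le
  have hωge : omv S ≤ omv (S * y) := by
    rcases eq_or_lt_of_le hy with h | h
    · rw [← h, mul_one]
    · exact (omv_lt hS0.le (by nlinarith)).le
  have hV := vv_eq hSy.le
  have hV1 := vv_eq hS0.le
  have hVp := vv_pos (S * y)
  have hVp1 := vv_pos S
  have hlV := log_vv (S * y)
  have hlV1 := log_vv S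
  have hGdef : Gi (omv S) S i y = -(omv S ^ 2 * S ^ i * ((-1) ^ i * (Vv (S * y))⁻¹ ^ i *
      (Pn i).eval ((omv (S * y))⁻¹))) := if_neg (by omega)
  set ω₁ := omv S with hω₁d
  set ω := omv (S * y) with hωd
  set V := Vv (S * y) with hVd
  set V₁ := Vv S with hV₁d
  have hω0 : 0 < ω := by linarith
  have hω1 : 0 < ω - 1 := by
    have h1 : 0 < V * (ω - 1) := by
      have h2 : V * (ω - 1) = V * ω - V := by ring
      rw [h2, hV]
      exact hSy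
    exact pos_of_mul_pos_right h1 hVp.le
  have hVle : V ≤ X * V₁ := by
    have h1 : V * (ω - 1) ≤ X * V₁ * (ω - 1) := by
      have h2 : V * (ω - 1) = y * (V₁ * (ω₁ - 1)) := by
        have h3 : V * (ω - 1) = V * ω - V := by ring
        have h4 : y * (V₁ * (ω₁ - 1)) = (V₁ * ω₁ - V₁) * y := by ring
        rw [h3, h4, hV, hV1]
      have h5 : 0 ≤ V₁ * (ω₁ - 1) := mul_nonneg hVp1.le (by linarith)
      have h6 : y * (V₁ * (ω₁ - 1)) ≤ X * (V₁ * (ω₁ - 1)) := mul_le_mul_of_nonneg_right hyX h5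
      have h7 : X * (V₁ * (ω₁ - 1)) ≤ X * V₁ * (ω - 1) := by
        rw [← mul_assoc]
        exact mul_le_mul_of_nonneg_left (by linarith) (by positivity)
      rw [h2]
      exact h6.trans h7
    exact le_of_mul_le_mul_right h1 hω1
  have hωle : ω ≤ Real.log X + ω₁ := by
    rw [← hlV, ← hlV1, ← Real.log_mul (by linarith) hVp1.ne']
    exact Real.log_le_log hVp hVle
  have hw0 : 0 < ω⁻¹ := inv_pos.2 hω0
  have hw1 : ω⁻¹ ≤ 1 := inv_le_one_of_one_le₀ (by linarith)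
  obtain ⟨r, hr, hP⟩ := hM i hi ω⁻¹ hw0.le hw1
  rw [hP] at hGdef
  set w := ω⁻¹ with hw
  have hwω : ω * w = 1 := mul_inv_cancel₀ hω0.ne'
  set a : ℝ := (((i - 1).factorial : ℕ) : ℝ) with ha
  have ha0 : 0 ≤ a := Nat.cast_nonneg _
  have hSV : S * V⁻¹ = (ω - 1) * y⁻¹ := by
    rw [← div_eq_mul_inv, ← div_eq_mul_inv, div_eq_div_iff hVp.ne' hy0.ne', ← hV]
    ring
  have hGi : Gi ω₁ S i y - (-1) ^ (i + 1) * a * (y⁻¹) ^ i =
      (-1) ^ (i + 1) * ((y⁻¹) ^ i * ((ω₁ * w) ^ 2 * (1 - w) ^ i * (a + w * r) - a)) := by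
    have h1 : -(ω₁ ^ 2 * S ^ i * ((-1) ^ i * V⁻¹ ^ i * (w ^ (i + 2) * (a + w * r)))) =
        (-1) ^ (i + 1) * (ω₁ ^ 2 * (S * V⁻¹) ^ i * w ^ (i + 2) * (a + w * r)) := by
      rw [mul_pow S V⁻¹]
      ring
    have h2 : ω₁ ^ 2 * ((ω - 1) * y⁻¹) ^ i * w ^ (i + 2) * (a + w * r) =
        (y⁻¹) ^ i * ((ω₁ * w) ^ 2 * ((ω - 1) * w) ^ i * (a + w * r)) := by
      rw [mul_pow (ω - 1) y⁻¹, mul_pow (ω - 1) w]
      ring
    have h3 : (ω - 1) * w = 1 - w := by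
      rw [sub_mul, hwω, one_mul]
    rw [hGdef, h1, hSV, h2, h3]
    ring
  rw [hGi, abs_mul, abs_pow, abs_neg, abs_one, one_pow, one_mul, abs_mul,
    abs_of_nonneg (pow_nonneg (inv_nonneg.2 hy0.le) i)]
  have hyi : (y⁻¹) ^ i ≤ 1 := pow_le_one₀ (inv_nonneg.2 hy0.le) (inv_le_one_of_one_le₀ hy)
  have hωw1 : ω₁ * w ≤ 1 := by
    rw [← hwω]
    exact mul_le_mul_of_nonneg_right hωge hw0.le
  have hωw0 : 0 ≤ ω₁ * w := by positivity
  have hA : 1 - (ω₁ * w) ^ 2 ≤ 2 * Real.log X * w := by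
    have h1 : 1 - (ω₁ * w) ^ 2 = (1 - ω₁ * w) * (1 + ω₁ * w) := by ring
    have h2 : 1 - ω₁ * w ≤ Real.log X * w := by
      have h3 : 1 - ω₁ * w = (ω - ω₁) * w := by rw [sub_mul, hwω]
      rw [h3]
      exact mul_le_mul_of_nonneg_right (by linarith) hw0.le
    have h4 : (1 - ω₁ * w) * (1 + ω₁ * w) ≤ (1 - ω₁ * w) * 2 :=
      mul_le_mul_of_nonneg_left (by linarith) (by linarith)
    rw [h1]
    linarith
  have hB : 1 - (1 - w) ^ i ≤ i * w := by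
    have h1 := one_add_mul_le_pow (a := -w) (by linarith) i
    have h2 : 1 + -w = 1 - w := by ring
    rw [h2] at h1
    linarith
  have hT := Gest_prod (i := i) (sq_nonneg (ω₁ * w)) (pow_le_one₀ hωw0 hωw1)
    (pow_nonneg (by linarith : 0 ≤ 1 - w) i) (pow_le_one₀ (by linarith) (by linarith)) ha0 hw0.le
    hr hA hB
  have hwle : w ≤ 1 / ω₁ := by
    rw [hw, one_div]
    exact inv_anti₀ (by linarith) hωge
  have han : a ≤ (n.factorial : ℝ) := by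
    rw [ha]
    exact_mod_cast Nat.factorial_le (by omega)
  have hin' : (i : ℝ) ≤ n := by exact_mod_cast hin
  have hMi : M i ≤ ∑ j ∈ Finset.range (n + 1), M j :=
    Finset.single_le_sum (fun j _ => hM0 j) (Finset.mem_range.2 (by omega))
  have hcoef : a * (2 * Real.log X + i) + M i ≤
      (n.factorial : ℝ) * (2 * Real.log X + n) + ∑ j ∈ Finset.range (n + 1), M j := by
    refine add_le_add (mul_le_mul han (by linarith) (by positivity) (Nat.cast_nonneg _)) hMi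
  calc (y⁻¹) ^ i * |(ω₁ * w) ^ 2 * (1 - w) ^ i * (a + w * r) - a|
      ≤ 1 * |(ω₁ * w) ^ 2 * (1 - w) ^ i * (a + w * r) - a| :=
        mul_le_mul_of_nonneg_right hyi (abs_nonneg _)
    _ ≤ (a * (2 * Real.log X + i) + M i) * w := by rw [one_mul]; exact hT
    _ ≤ ((n.factorial : ℝ) * (2 * Real.log X + n) + ∑ j ∈ Finset.range (n + 1), M j) *
        (1 / ω₁) := mul_le_mul hcoef hwle hw0.le (by positivity)
    _ = _ := by rw [mul_one_div]

end Pool.Agent.Lib.MP_ec260d_ntD
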