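import Mathlib
import Pool.Agent.Lib.MP_ec260d_ntD.R.Defs

/-!
# JOB R/Div: sums over nodes and the polynomial `QQ` (about 200 lines)

Induction on `n` (for all `f`).  `n = 0`: `QQ y ρ = C (ρ 0)`, `nq = |ρ 0|`, `C = 1`.
Step `n → n + 1` (nodes `y_0, .., y_{n+1}`): `∑ ρ_c f(y_c) = f(y_0) R + ∑_{c ≥ 1} ρ_c (y_c - y_0) f₁(y_c)`, where `R = ∑ ρ_c` and `f₁(y) = ∫_0^1 f'(y_0 + θ (y - y_0)) dθ` (fundamental theorem of calculus along the segment).
`f₁` has the derivatives `f₁_j(y) = ∫_0^1 θ^j f_{j+1}(y_0 + θ (y - y_0)) dθ` for all `j` and `y > 0` (differentiation under the integral: `intervalIntegral.hasDerivAt_integral_of_dominated_loc_of_deriv_le`, all `f_j` are continuous on `(0, ∞)`), bounded by `ε` on `[1, X]` for `j ≤ n`.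
The new weights `ρ'_c = ρ_c (y_c - y_0)` and nodes `y_c`, `c ≥ 1` (re-index by `Fin.succ`) have the polynomial `Q' = Q - R ∏_{c ≥ 1} (X - y_c)`, `Q = QQ y ρ` (`Fin.sum_univ_succ`, `Fin.prod_univ_succ`; `(X - y_0) - (X - y_c) = y_c - y_0`).
`R` is the coefficient of `X^(n+1)` in `Q`, and the coefficients of `∏_{c≥1} (X - y_c)` are at most `(1 + X)^(n+1)` in absolute value; so `nq Q' n ≤ C nq Q (n+1)`.
-/

namespace Pool.Agent.Lib.MP_ec260d_ntD

open Real


private theorem div_prod_coeff {ι : Type*} (s : Finset ι) (a : ι → ℝ) (B : ℝ) (hB : 0 ≤ B)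
    (ha : ∀ c, |a c| ≤ B) : ∀ i : ℕ,
    |(∏ c ∈ s, (Polynomial.X - Polynomial.C (a c))).coeff i| ≤ (1 + B) ^ s.card := by
  classical
  induction s using Finset.induction_on with
  | empty =>
    intro i
    rw [Finset.prod_empty, Polynomial.coeff_one, Finset.card_empty, pow_zero]
    split_ifs <;> norm_num
  | insert c s hc ih =>
    intro i
    rw [Finset.prod_insert hc, sub_mul, Polynomial.coeff_sub, Polynomial.coeff_C_mul,
      Finset.card_insert_of_notMem hc, pow_succ]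
    have hP : 0 ≤ (1 + B) ^ s.card := by positivity
    have h1 : |(Polynomial.X * ∏ c ∈ s, (Polynomial.X - Polynomial.C (a c))).coeff i| ≤
        (1 + B) ^ s.card := by
      cases i with
      | zero =>
        rw [Polynomial.coeff_X_mul_zero, abs_zero]
        exact hP
      | succ i =>
        rw [Polynomial.coeff_X_mul]
        exact ih i
    have h2 : |a c * (∏ c ∈ s, (Polynomial.X - Polynomial.C (a c))).coeff i| ≤
        B * (1 + B) ^ s.card := by
      rw [abs_mul]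
      exact mul_le_mul (ha c) (ih i) (abs_nonneg _) hB
    have h3 := abs_sub ((Polynomial.X * ∏ c ∈ s, (Polynomial.X - Polynomial.C (a c))).coeff i)
      (a c * (∏ c ∈ s, (Polynomial.X - Polynomial.C (a c))).coeff i)
    linarith

private theorem div_erase_zero {n : ℕ} (g : Fin (n + 2) → Polynomial ℝ) :
    ∏ c ∈ Finset.univ.erase (0 : Fin (n + 2)), g c = ∏ i : Fin (n + 1), g i.succ := by
  have h1 : Finset.univ.erase (0 : Fin (n + 2)) = Finset.univ.map (Fin.succEmb (n + 1)) := by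
    ext x
    rw [Finset.mem_erase, Finset.mem_map]
    constructor
    · rintro ⟨hx, _⟩
      obtain ⟨y, hy⟩ := Fin.exists_succ_eq.2 hx
      exact ⟨y, Finset.mem_univ _, hy⟩
    · rintro ⟨y, _, hy⟩
      refine ⟨?_, Finset.mem_univ _⟩
      rw [← hy]
      exact Fin.succ_ne_zero y
  rw [h1, Finset.prod_map]
  rfl

private theorem div_erase_succ {n : ℕ} (g : Fin (n + 2) → Polynomial ℝ) (i : Fin (n + 1)) :
    ∏ c ∈ Finset.univ.erase i.succ, g c = g 0 * ∏ j ∈ Finset.univ.erase i, g j.succ := by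
  have h1 : Finset.univ.erase i.succ =
      insert (0 : Fin (n + 2)) ((Finset.univ.erase i).map (Fin.succEmb (n + 1))) := by
    ext x
    rw [Finset.mem_erase, Finset.mem_insert, Finset.mem_map]
    constructor
    · rintro ⟨hx, _⟩
      by_cases h0 : x = 0
      · exact Or.inl h0
      · right
        obtain ⟨y, hy⟩ := Fin.exists_succ_eq.2 h0
        refine ⟨y, Finset.mem_erase.2 ⟨?_, Finset.mem_univ _⟩, hy⟩
        rintro rfl
        exact hx hy.symm
    · rintro (rfl | ⟨y, hy, hyx⟩)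
      · exact ⟨(Fin.succ_ne_zero i).symm, Finset.mem_univ _⟩
      · refine ⟨?_, Finset.mem_univ _⟩
        rw [← hyx]
        intro h
        exact (Finset.mem_erase.1 hy).1 (Fin.succ_injective _ h)
  have h2 : (0 : Fin (n + 2)) ∉ (Finset.univ.erase i).map (Fin.succEmb (n + 1)) := by
    rw [Finset.mem_map]
    rintro ⟨y, _, hy⟩
    exact Fin.succ_ne_zero y hy
  rw [h1, Finset.prod_insert h2, Finset.prod_map]
  rfl

private theorem div_qq_succ {n : ℕ} (y ρ : Fin (n + 2) → ℝ) :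
    QQ y ρ = Polynomial.C (∑ c, ρ c) * ∏ i : Fin (n + 1), (Polynomial.X - Polynomial.C (y i.succ)) +
      QQ (fun i : Fin (n + 1) => y i.succ) (fun i => ρ i.succ * (y i.succ - y 0)) := by
  unfold QQ
  have key : ∑ i : Fin (n + 1), Polynomial.C (ρ i.succ) *
      ∏ c ∈ Finset.univ.erase i.succ, (Polynomial.X - Polynomial.C (y c)) =
      Polynomial.C (∑ i : Fin (n + 1), ρ i.succ) *
        ∏ i : Fin (n + 1), (Polynomial.X - Polynomial.C (y i.succ)) +
      ∑ c : Fin (n + 1), Polynomial.C (ρ c.succ * (y c.succ - y 0)) *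
        ∏ j ∈ Finset.univ.erase c, (Polynomial.X - Polynomial.C (y j.succ)) := by
    rw [map_sum, Finset.sum_mul, ← Finset.sum_add_distrib]
    refine Finset.sum_congr rfl fun i _ => ?_
    rw [div_erase_succ, ← Finset.mul_prod_erase Finset.univ
      (fun i : Fin (n + 1) => (Polynomial.X - Polynomial.C (y i.succ) : Polynomial ℝ))
      (Finset.mem_univ i), Polynomial.C_mul, Polynomial.C_sub]
    ring
  rw [Fin.sum_univ_succ, div_erase_zero, Fin.sum_univ_succ (fun c => ρ c), Polynomial.C_add,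
    key]
  ring

private theorem div_coeff_top {n : ℕ} (μ ρ : Fin (n + 1) → ℝ) : (QQ μ ρ).coeff (n + 1) = 0 := by
  unfold QQ
  rw [Polynomial.finsetSum_coeff]
  refine Finset.sum_eq_zero fun c _ => ?_
  rw [Polynomial.coeff_C_mul, Polynomial.coeff_eq_zero_of_natDegree_lt, mul_zero]
  rw [Polynomial.natDegree_finsetProd_X_sub_C_eq_card, Finset.card_erase_of_mem (Finset.mem_univ c),
    Finset.card_univ, Fintype.card_fin]
  omega

private theorem div_nq_nonneg (Q : Polynomial ℝ) (n : ℕ) : 0 ≤ nq Q n :=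
  Finset.sum_nonneg fun _ _ => abs_nonneg _

private theorem div_R {n : ℕ} (y ρ : Fin (n + 2) → ℝ) :
    (QQ y ρ).coeff (n + 1) = ∑ c, ρ c := by
  rw [div_qq_succ, Polynomial.coeff_add, div_coeff_top, add_zero, Polynomial.coeff_C_mul]
  have h1 : (∏ i : Fin (n + 1), (Polynomial.X - Polynomial.C (y i.succ))).coeff (n + 1) = 1 := by
    have h2 : (∏ i : Fin (n + 1), (Polynomial.X - Polynomial.C (y i.succ))).Monic :=
      Polynomial.monic_prod_X_sub_C _ _
    have h3 : (∏ i : Fin (n + 1), (Polynomial.X - Polynomial.C (y i.succ))).natDegree = n + 1 := by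
      rw [Polynomial.natDegree_finsetProd_X_sub_C_eq_card, Finset.card_univ, Fintype.card_fin]
    have h4 := h2.coeff_natDegree
    rwa [h3] at h4
  rw [h1, mul_one]

private theorem div_R_le {n : ℕ} (y ρ : Fin (n + 2) → ℝ) :
    |∑ c, ρ c| ≤ nq (QQ y ρ) (n + 1) := by
  rw [← div_R y ρ]
  exact Finset.single_le_sum (f := fun i => |(QQ y ρ).coeff i|) (fun _ _ => abs_nonneg _)
    (Finset.mem_range.2 (Nat.lt_succ_self (n + 1)))

private theorem div_nq_le {n : ℕ} (X : ℝ) (hX : 1 ≤ X) (y ρ : Fin (n + 2) → ℝ)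
    (hy : ∀ c, 1 ≤ y c ∧ y c ≤ X) :
    nq (QQ (fun i : Fin (n + 1) => y i.succ) (fun i => ρ i.succ * (y i.succ - y 0))) n ≤
      (1 + (n + 1) * (1 + X) ^ (n + 1)) * nq (QQ y ρ) (n + 1) := by
  set Q := QQ y ρ with hQ
  set Q' := QQ (fun i : Fin (n + 1) => y i.succ) (fun i => ρ i.succ * (y i.succ - y 0)) with hQ'
  have h1 : ∀ i : ℕ, |Q'.coeff i| ≤ |Q.coeff i| + nq Q (n + 1) * (1 + X) ^ (n + 1) := by
    intro i
    have h2 : Q'.coeff i = Q.coeff i - (∑ c, ρ c) *
        (∏ i : Fin (n + 1), (Polynomial.X - Polynomial.C (y i.succ))).coeff i := by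
      rw [hQ, div_qq_succ, Polynomial.coeff_add, Polynomial.coeff_C_mul]
      ring
    rw [h2]
    refine (abs_sub _ _).trans ?_
    have h3 : |(∏ i : Fin (n + 1), (Polynomial.X - Polynomial.C (y i.succ))).coeff i| ≤
        (1 + X) ^ (n + 1) := by
      have h4 := div_prod_coeff (Finset.univ : Finset (Fin (n + 1))) (fun i => y i.succ) X
        (by linarith) (fun c => by
          rw [abs_of_nonneg (by linarith [(hy c.succ).1])]
          exact (hy c.succ).2) i
      rwa [Finset.card_univ, Fintype.card_fin] at h4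
    rw [abs_mul]
    have h5 := mul_le_mul (div_R_le y ρ) h3 (abs_nonneg _) (div_nq_nonneg _ _)
    linarith
  have h2 : nq Q' n ≤ ∑ i ∈ Finset.range (n + 1), (|Q.coeff i| + nq Q (n + 1) * (1 + X) ^ (n + 1)) :=
    Finset.sum_le_sum fun i _ => h1 i
  have h3 : ∑ i ∈ Finset.range (n + 1), |Q.coeff i| ≤ nq Q (n + 1) := by
    unfold nq
    rw [Finset.sum_range_succ _ (n + 1)]
    linarith [abs_nonneg (Q.coeff (n + 1))]
  rw [Finset.sum_add_distrib, Finset.sum_const, Finset.card_range, nsmul_eq_mul] at h2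
  push_cast at h2
  calc nq Q' n ≤ _ := h2
    _ ≤ nq Q (n + 1) + ((n : ℝ) + 1) * (nq Q (n + 1) * (1 + X) ^ (n + 1)) := by linarith
    _ = (1 + ((n : ℝ) + 1) * (1 + X) ^ (n + 1)) * nq Q (n + 1) := by ring

private theorem div_pos {a t θ : ℝ} (ha : 0 < a) (ht : 0 < t) (h0 : 0 ≤ θ) (h1 : θ ≤ 1) :
    0 < a + θ * (t - a) := by
  have h2 : a + θ * (t - a) = (1 - θ) * a + θ * t := by ring
  rw [h2]
  rcases h0.eq_or_lt with h | h
  · rw [← h]
    linarith
  · have h3 : 0 < θ * t := mul_pos h ht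
    have h4 : 0 ≤ (1 - θ) * a := mul_nonneg (by linarith) ha.le
    linarith

private theorem div_mem {a t θ lo hi : ℝ} (ha : lo ≤ a ∧ a ≤ hi) (ht : lo ≤ t ∧ t ≤ hi)
    (h0 : 0 ≤ θ) (h1 : θ ≤ 1) : lo ≤ a + θ * (t - a) ∧ a + θ * (t - a) ≤ hi := by
  have h2 : a + θ * (t - a) = (1 - θ) * a + θ * t := by ring
  rw [h2]
  constructor
  · nlinarith [mul_le_mul_of_nonneg_left ha.1 (sub_nonneg.2 h1), mul_le_mul_of_nonneg_left ht.1 h0]
  · nlinarith [mul_le_mul_of_nonneg_left ha.2 (sub_nonneg.2 h1), mul_le_mul_of_nonneg_left ht.2 h0]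

private theorem div_cont (f : ℕ → ℝ → ℝ)
    (hf : ∀ j : ℕ, ∀ t : ℝ, 0 < t → HasDerivAt (f j) (f (j + 1) t) t) (a t : ℝ) (ha : 0 < a)
    (ht : 0 < t) (i j : ℕ) :
    ContinuousOn (fun θ : ℝ => θ ^ i * f j (a + θ * (t - a))) (Set.uIcc 0 1) := by
  rw [Set.uIcc_of_le zero_le_one]
  have hc : ContinuousOn (f j) (Set.Ioi 0) := fun x hx => (hf j x hx).continuousAt.continuousWithinAt
  refine ContinuousOn.mul (by fun_prop) (hc.comp (by fun_prop) ?_)
  intro θ hθ
  exact div_pos ha ht hθ.1 hθ.2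

private theorem div_deriv (f : ℕ → ℝ → ℝ)
    (hf : ∀ j : ℕ, ∀ t : ℝ, 0 < t → HasDerivAt (f j) (f (j + 1) t) t) (a : ℝ) (ha : 0 < a)
    (j : ℕ) (t : ℝ) (ht : 0 < t) :
    HasDerivAt (fun x => ∫ θ in (0 : ℝ)..1, θ ^ j * f (j + 1) (a + θ * (x - a)))
      (∫ θ in (0 : ℝ)..1, θ ^ (j + 1) * f (j + 1 + 1) (a + θ * (t - a))) t := by
  have hlo : 0 < min a (t / 2) := lt_min ha (by linarith)
  have hc : ContinuousOn (f (j + 2)) (Set.Icc (min a (t / 2)) (max a (2 * t))) := fun x hx =>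
    (hf (j + 2) x (hlo.trans_le hx.1)).continuousAt.continuousWithinAt
  obtain ⟨M, hM⟩ := isCompact_Icc.exists_bound_of_continuousOn hc
  refine (intervalIntegral.hasDerivAt_integral_of_dominated_loc_of_deriv_le
    (F := fun x θ => θ ^ j * f (j + 1) (a + θ * (x - a)))
    (F' := fun x θ => θ ^ (j + 1) * f (j + 1 + 1) (a + θ * (x - a)))
    (s := Set.Ioo (t / 2) (2 * t)) (bound := fun _ => M)
    (Ioo_mem_nhds (by linarith) (by linarith)) ?_ ?_ ?_ ?_ ?_ ?_).2
  · filter_upwards [Ioo_mem_nhds (a := t / 2) (b := 2 * t) (by linarith) (by linarith)] with x hx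
    exact ((div_cont f hf a x ha (by linarith [hx.1]) j (j + 1)).mono
      Set.uIoc_subset_uIcc).aestronglyMeasurable measurableSet_uIoc
  · exact (div_cont f hf a t ha ht j (j + 1)).intervalIntegrable
  · exact ((div_cont f hf a t ha ht (j + 1) (j + 1 + 1)).mono
      Set.uIoc_subset_uIcc).aestronglyMeasurable measurableSet_uIoc
  · refine Filter.Eventually.of_forall fun θ hθ x hx => ?_
    rw [Set.uIoc_of_le zero_le_one] at hθ
    have h1 := hM (a + θ * (x - a)) (div_mem ⟨min_le_left _ _, le_max_left _ _⟩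
      ⟨(min_le_right _ _).trans hx.1.le, hx.2.le.trans (le_max_right _ _)⟩ hθ.1.le hθ.2)
    rw [norm_mul, norm_pow]
    have h2 : ‖θ‖ ^ (j + 1) ≤ 1 := by
      rw [Real.norm_of_nonneg hθ.1.le]
      exact pow_le_one₀ hθ.1.le hθ.2
    calc ‖θ‖ ^ (j + 1) * ‖f (j + 1 + 1) (a + θ * (x - a))‖ ≤
          1 * ‖f (j + 1 + 1) (a + θ * (x - a))‖ := mul_le_mul_of_nonneg_right h2 (norm_nonneg _)
      _ ≤ M := by
          rw [one_mul]
          exact h1
  · exact intervalIntegrable_const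
  · refine Filter.Eventually.of_forall fun θ hθ x hx => ?_
    rw [Set.uIoc_of_le zero_le_one] at hθ
    have hpos : 0 < a + θ * (x - a) := div_pos ha (by linarith [hx.1]) hθ.1.le hθ.2
    have h1 : HasDerivAt (fun x : ℝ => a + θ * (x - a)) θ x := by
      have h2 := (((hasDerivAt_id x).sub_const a).const_mul θ).const_add a
      rwa [mul_one] at h2
    have h2 := (HasDerivAt.comp x (hf (j + 1) _ hpos) h1).const_mul (θ ^ j)
    have h3 : θ ^ j * (f (j + 1 + 1) (a + θ * (x - a)) * θ) =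
        θ ^ (j + 1) * f (j + 1 + 1) (a + θ * (x - a)) := by
      rw [pow_succ]
      ring
    rw [h3] at h2
    exact h2

private theorem div_ftc (f : ℕ → ℝ → ℝ)
    (hf : ∀ j : ℕ, ∀ t : ℝ, 0 < t → HasDerivAt (f j) (f (j + 1) t) t) (a : ℝ) (ha : 0 < a)
    (t : ℝ) (ht : 0 < t) :
    f 0 t = f 0 a + (t - a) * ∫ θ in (0 : ℝ)..1, θ ^ 0 * f (0 + 1) (a + θ * (t - a)) := by
  have h1 : ∀ θ ∈ Set.uIcc (0 : ℝ) 1, HasDerivAt (fun θ : ℝ => f 0 (a + θ * (t - a)))
      ((t - a) * (θ ^ 0 * f (0 + 1) (a + θ * (t - a)))) θ := by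
    intro θ hθ
    rw [Set.uIcc_of_le zero_le_one] at hθ
    have hpos : 0 < a + θ * (t - a) := div_pos ha ht hθ.1 hθ.2
    have h2 : HasDerivAt (fun θ : ℝ => a + θ * (t - a)) (t - a) θ := by
      have h3 := ((hasDerivAt_id θ).mul_const (t - a)).const_add a
      rwa [one_mul] at h3
    have h3 := HasDerivAt.comp θ (hf 0 _ hpos) h2
    have h4 : f (0 + 1) (a + θ * (t - a)) * (t - a) =
        (t - a) * (θ ^ 0 * f (0 + 1) (a + θ * (t - a))) := by
      rw [pow_zero]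
      ring
    rw [h4] at h3
    exact h3
  have hci : ContinuousOn (fun θ : ℝ => (t - a) * (θ ^ 0 * f (0 + 1) (a + θ * (t - a))))
      (Set.uIcc 0 1) := continuousOn_const.mul (div_cont f hf a t ha ht 0 (0 + 1))
  have h2 := intervalIntegral.integral_eq_sub_of_hasDerivAt h1 hci.intervalIntegrable
  rw [intervalIntegral.integral_const_mul] at h2
  rw [h2]
  have e1 : a + 1 * (t - a) = t := by ring
  have e2 : a + 0 * (t - a) = a := by ring
  rw [e1, e2]
  ring

theorem div_bound (n : ℕ) (X : ℝ) (hX : 1 ≤ X) : ∃ C : ℝ, 0 ≤ C ∧ ∀ (y ρ : Fin (n + 1) → ℝ),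
    (∀ c, 1 ≤ y c ∧ y c ≤ X) → ∀ f : ℕ → ℝ → ℝ, (∀ j : ℕ, ∀ t : ℝ, 0 < t → HasDerivAt (f j) (f (j + 1) t) t) →
      ∀ ε : ℝ, 0 ≤ ε → (∀ j ≤ n, ∀ t : ℝ, 1 ≤ t → t ≤ X → |f j t| ≤ ε) →
        |∑ c, ρ c * f 0 (y c)| ≤ C * ε * nq (QQ y ρ) n := by
  induction n with
  | zero =>
    refine ⟨1, zero_le_one, fun y ρ hy f _ ε hε hb => ?_⟩
    have h1 : nq (QQ y ρ) 0 = |ρ 0| := by
      unfold nq QQ
      simp
    rw [h1, Fin.sum_univ_one, abs_mul, one_mul, mul_comm]
    exact mul_le_mul_of_nonneg_right (hb 0 le_rfl (y 0) (hy 0).1 (hy 0).2) (abs_nonneg _)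
  | succ n ih =>
    obtain ⟨C, hC, ih⟩ := ih
    refine ⟨1 + C * (1 + (n + 1) * (1 + X) ^ (n + 1)), by positivity,
      fun y ρ hy f hf ε hε hb => ?_⟩
    have ha : 0 < y 0 := by linarith [(hy 0).1]
    set g : ℕ → ℝ → ℝ := fun j x => ∫ θ in (0 : ℝ)..1, θ ^ j * f (j + 1) (y 0 + θ * (x - y 0))
      with hg
    have hgd : ∀ j : ℕ, ∀ t : ℝ, 0 < t → HasDerivAt (g j) (g (j + 1) t) t := fun j t ht =>
      div_deriv f hf (y 0) ha j t ht
    have hgb : ∀ j ≤ n, ∀ t : ℝ, 1 ≤ t → t ≤ X → |g j t| ≤ ε := by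
      intro j hj t h1 h2
      have h3 : ‖∫ θ in (0 : ℝ)..1, θ ^ j * f (j + 1) (y 0 + θ * (t - y 0))‖ ≤ ε * |(1 : ℝ) - 0| := by
        refine intervalIntegral.norm_integral_le_of_norm_le_const fun θ hθ => ?_
        rw [Set.uIoc_of_le zero_le_one] at hθ
        have h4 := div_mem (hy 0) ⟨h1, h2⟩ hθ.1.le hθ.2
        have h5 := hb (j + 1) (by omega) _ h4.1 h4.2
        rw [norm_mul, norm_pow]
        have h6 : ‖θ‖ ^ j ≤ 1 := by
          rw [Real.norm_of_nonneg hθ.1.le]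
          exact pow_le_one₀ hθ.1.le hθ.2
        calc ‖θ‖ ^ j * ‖f (j + 1) (y 0 + θ * (t - y 0))‖ ≤
              1 * ‖f (j + 1) (y 0 + θ * (t - y 0))‖ := mul_le_mul_of_nonneg_right h6 (norm_nonneg _)
          _ ≤ ε := by
              rw [one_mul]
              exact h5
      rw [sub_zero, abs_one, mul_one] at h3
      exact h3
    have hkey := ih (fun i => y i.succ) (fun i => ρ i.succ * (y i.succ - y 0))
      (fun i => hy i.succ) g hgd ε hε hgb
    have hsum : ∑ c, ρ c * f 0 (y c) = (∑ c, ρ c) * f 0 (y 0) +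
        ∑ i : Fin (n + 1), ρ i.succ * (y i.succ - y 0) * g 0 (y i.succ) := by
      have hs2 : ∑ i : Fin (n + 1), ρ i.succ * f 0 (y i.succ) =
          (∑ i : Fin (n + 1), ρ i.succ) * f 0 (y 0) +
          ∑ i : Fin (n + 1), ρ i.succ * (y i.succ - y 0) * g 0 (y i.succ) := by
        rw [Finset.sum_mul, ← Finset.sum_add_distrib]
        refine Finset.sum_congr rfl fun i _ => ?_
        have h1 := div_ftc f hf (y 0) ha (y i.succ) (by linarith [(hy i.succ).1])
        have h2 : f 0 (y i.succ) = f 0 (y 0) + (y i.succ - y 0) * g 0 (y i.succ) := h1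
        rw [h2]
        ring
      rw [Fin.sum_univ_succ, Fin.sum_univ_succ (fun c => ρ c), hs2]
      ring
    rw [hsum]
    have hnq := div_nq_nonneg (QQ y ρ) (n + 1)
    have h1 : |(∑ c, ρ c) * f 0 (y 0)| ≤ nq (QQ y ρ) (n + 1) * ε := by
      rw [abs_mul]
      exact mul_le_mul (div_R_le y ρ) (hb 0 (Nat.zero_le _) (y 0) (hy 0).1 (hy 0).2) (abs_nonneg _) hnq
    have h2 : C * ε * nq (QQ (fun i : Fin (n + 1) => y i.succ)
        (fun i => ρ i.succ * (y i.succ - y 0))) n ≤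
        C * ε * ((1 + (n + 1) * (1 + X) ^ (n + 1)) * nq (QQ y ρ) (n + 1)) :=
      mul_le_mul_of_nonneg_left (div_nq_le X hX y ρ hy) (mul_nonneg hC hε)
    have h3 := abs_add_le ((∑ c, ρ c) * f 0 (y 0))
      (∑ i : Fin (n + 1), ρ i.succ * (y i.succ - y 0) * g 0 (y i.succ))
    have h4 : (1 + C * (1 + (n + 1) * (1 + X) ^ (n + 1))) * ε * nq (QQ y ρ) (n + 1) =
        nq (QQ y ρ) (n + 1) * ε +
          C * ε * ((1 + (n + 1) * (1 + X) ^ (n + 1)) * nq (QQ y ρ) (n + 1)) := by ring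
    rw [h4]
    linarith

end Pool.Agent.Lib.MP_ec260d_ntD
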