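import Mathlib
import Pool.Agent.Lib.MP_ec260d_ntD.R.Div

/-!
# JOB R/QPoly: elementary facts on the polynomials `QQ` (about 220 lines)

`qq_deg`: every summand has degree `≤ n`.  `qq_shift`: `QQ (fun c => x + μ c) ρ` is the composition of `QQ μ ρ` with `X - x`; the coefficients of `Q(X - x)` for `|x| ≤ X₀`, `deg Q ≤ n` are bounded by `C ‖Q‖` (binomial theorem / `Polynomial.comp`, `Polynomial.coeff_X_sub_C_pow`).
`qq_eval`: `eval (μ c) (QQ μ ρ) = ρ c * ∏_{c' ≠ c} (μ c - μ c')` (all other summands contain the factor `X - μ c`).  `qq_lower`: `|eval (μ c) Q| ≤ nq Q n * max 1 |μ c|^n`.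
`qq_frac`: let `q(x) = ∑ ρ_c ∏_{c' ≠ c} (x + μ c')`, so that `∑ ρ_c/(x + μ_c) = q(x)/∏ (x + μ_c)` for `x ≥ 1`; `q` is the polynomial `± QQ μ ρ (-x)`, its coefficients are those of `QQ μ ρ` up to signs.  Let `e_j(x) = ∑ ρ_c (-1)^j j! (x + μ_c)^(-1-j)` be the derivatives of `e_0 = ∑ ρ_c/(x + μ_c)`.
Lower bound: `q = e_0 Π`, `Π = ∏ (x + μ_c)`; by the Leibniz rule `q^(i)(x) = ∑_j C(i,j) e_j(x) Π^(i-j)(x)` (induction on `i` with `HasDerivAt`, or `iteratedDeriv`), so `|q^(i)(x)| ≤ C max_{j ≤ n} |e_j(x)|` for `i ≤ n`, `x ∈ [1,3]`;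
and the coefficients of `q` are bounded by `C max_{i ≤ n} |q^(i)(x)|` (Taylor expansion of a polynomial of degree `≤ n` at `x`: `Polynomial.taylor`, or `Polynomial.sum_taylor_eq`).
Upper bound: `div_bound` for the function `y ↦ y⁻¹` and its derivatives `f_i(t) = (-1)^(i+j) (i+j)! (t⁻¹)^(i+j+1)` at the nodes `x + μ_c`, and `qq_shift`.
-/

namespace Pool.Agent.Lib.MP_ec260d_ntD

open Real

private theorem QPoly_nq_nonneg (Q : Polynomial ℝ) (n : ℕ) : 0 ≤ nq Q n :=
  Finset.sum_nonneg fun _ _ => abs_nonneg _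

private theorem QPoly_coeff_pow {i k : ℕ} {x X₀ : ℝ} (hx : |x| ≤ X₀) :
    |((Polynomial.X - Polynomial.C x : Polynomial ℝ) ^ i).coeff k| ≤ (2 * (1 + X₀)) ^ i := by
  have h0 : 0 ≤ X₀ := (abs_nonneg x).trans hx
  induction i generalizing k with
  | zero =>
    rw [pow_zero, pow_zero, Polynomial.coeff_one]
    split_ifs
    · rw [abs_one]
    · rw [abs_zero]
      exact zero_le_one
  | succ i ih =>
    have h1 : 0 ≤ (2 * (1 + X₀)) ^ i := by positivity
    have h2 : |(((Polynomial.X - Polynomial.C x : Polynomial ℝ) ^ i) *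
        (Polynomial.X - Polynomial.C x)).coeff k| ≤ (2 * (1 + X₀)) ^ i + (2 * (1 + X₀)) ^ i * X₀ := by
      rw [mul_sub, Polynomial.coeff_sub, Polynomial.coeff_mul_C]
      refine (abs_sub _ _).trans (add_le_add ?_ ?_)
      · cases k with
        | zero =>
          rw [Polynomial.coeff_mul_X_zero, abs_zero]
          exact h1
        | succ k =>
          rw [Polynomial.coeff_mul_X]
          exact ih
      · rw [abs_mul]
        exact mul_le_mul ih hx (abs_nonneg _) h1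
    rw [pow_succ, pow_succ]
    refine h2.trans ?_
    nlinarith

private theorem QPoly_comp (n : ℕ) {X₀ : ℝ} {x : ℝ} (hx : |x| ≤ X₀) (Q : Polynomial ℝ)
    (hQ : Q.natDegree ≤ n) :
    nq (Q.comp (Polynomial.X - Polynomial.C x)) n ≤ ((n + 1) * (2 * (1 + X₀)) ^ n) * nq Q n := by
  have h0 : 0 ≤ X₀ := (abs_nonneg x).trans hx
  have h1 : Q.comp (Polynomial.X - Polynomial.C x) = ∑ i ∈ Finset.range (n + 1),
      Polynomial.C (Q.coeff i) * (Polynomial.X - Polynomial.C x) ^ i :=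
    Polynomial.eval₂_eq_sum_range' Polynomial.C (Nat.lt_succ_of_le hQ) _
  have h2 : ∀ k, |(Q.comp (Polynomial.X - Polynomial.C x)).coeff k| ≤
      (2 * (1 + X₀)) ^ n * nq Q n := by
    intro k
    rw [h1, Polynomial.finsetSum_coeff]
    refine (Finset.abs_sum_le_sum_abs _ _).trans ?_
    unfold nq
    rw [Finset.mul_sum]
    refine Finset.sum_le_sum fun i hi => ?_
    rw [Polynomial.coeff_C_mul, abs_mul, mul_comm]
    refine mul_le_mul_of_nonneg_right ?_ (abs_nonneg _)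
    refine (QPoly_coeff_pow hx).trans (pow_le_pow_right₀ (by linarith) ?_)
    have := Finset.mem_range.1 hi
    omega
  have h3 : nq (Q.comp (Polynomial.X - Polynomial.C x)) n ≤
      ∑ _k ∈ Finset.range (n + 1), (2 * (1 + X₀)) ^ n * nq Q n :=
    Finset.sum_le_sum fun k _ => h2 k
  refine h3.trans (le_of_eq ?_)
  rw [Finset.sum_const, Finset.card_range, nsmul_eq_mul]
  push_cast
  ring

private theorem QPoly_qqcomp {n : ℕ} (μ ρ : Fin (n + 1) → ℝ) (x : ℝ) :
    QQ (fun c => x + μ c) ρ = (QQ μ ρ).comp (Polynomial.X - Polynomial.C x) := by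
  unfold QQ
  rw [Polynomial.sum_comp]
  refine Finset.sum_congr rfl fun c _ => ?_
  rw [Polynomial.mul_comp, Polynomial.C_comp, Polynomial.prod_comp]
  congr 1
  refine Finset.prod_congr rfl fun c' _ => ?_
  rw [Polynomial.sub_comp, Polynomial.X_comp, Polynomial.C_comp, Polynomial.C_add]
  ring

theorem qq_deg {n : ℕ} (μ ρ : Fin (n + 1) → ℝ) : (QQ μ ρ).natDegree ≤ n := by
  unfold QQ
  refine Polynomial.natDegree_sum_le_of_forall_le _ _ fun c _ => ?_
  refine (Polynomial.natDegree_C_mul_le _ _).trans ((Polynomial.natDegree_prod_le _ _).trans ?_)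
  refine (Finset.sum_le_card_nsmul _ _ 1 fun c' _ => ?_).trans ?_
  · exact (Polynomial.natDegree_X_sub_C_le _)
  · rw [Finset.card_erase_of_mem (Finset.mem_univ c), Finset.card_univ, Fintype.card_fin, smul_eq_mul]
    omega

theorem qq_shift (n : ℕ) (X₀ : ℝ) (hX : 0 ≤ X₀) : ∃ C : ℝ, 0 ≤ C ∧ ∀ (μ ρ : Fin (n + 1) → ℝ) (x : ℝ), |x| ≤ X₀ →
    nq (QQ (fun c => x + μ c) ρ) n ≤ C * nq (QQ μ ρ) n := by
  refine ⟨(n + 1) * (2 * (1 + X₀)) ^ n, by positivity, fun μ ρ x hx => ?_⟩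
  rw [QPoly_qqcomp]
  exact QPoly_comp n hx (QQ μ ρ) (qq_deg μ ρ)

theorem qq_eval {n : ℕ} (μ ρ : Fin (n + 1) → ℝ) (c : Fin (n + 1)) :
    (QQ μ ρ).eval (μ c) = ρ c * ∏ c' ∈ Finset.univ.erase c, (μ c - μ c') := by
  unfold QQ
  rw [Polynomial.eval_finsetSum, Finset.sum_eq_single c]
  · rw [Polynomial.eval_mul, Polynomial.eval_C, Polynomial.eval_prod]
    congr 1
    refine Finset.prod_congr rfl fun c' _ => ?_
    rw [Polynomial.eval_sub, Polynomial.eval_X, Polynomial.eval_C]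
  · intro b _ hb
    rw [Polynomial.eval_mul, Polynomial.eval_prod,
      Finset.prod_eq_zero (Finset.mem_erase.2 ⟨Ne.symm hb, Finset.mem_univ c⟩), mul_zero]
    rw [Polynomial.eval_sub, Polynomial.eval_X, Polynomial.eval_C, sub_self]
  · intro h
    exact absurd (Finset.mem_univ c) h

theorem qq_lower (n : ℕ) (X : ℝ) (hX : 1 ≤ X) (μ ρ : Fin (n + 1) → ℝ) (hμ : ∀ c, |μ c| ≤ X) (γ : ℝ) (hγ : 0 < γ)
    (hsep : ∀ c c', c ≠ c' → γ ≤ |μ c - μ c'|) (c : Fin (n + 1)) :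
    |ρ c| * γ ^ n ≤ X ^ n * nq (QQ μ ρ) n := by
  have h1 : |(QQ μ ρ).eval (μ c)| ≤ X ^ n * nq (QQ μ ρ) n := by
    rw [Polynomial.eval_eq_sum_range' (Nat.lt_succ_of_le (qq_deg μ ρ))]
    refine (Finset.abs_sum_le_sum_abs _ _).trans ?_
    unfold nq
    rw [Finset.mul_sum]
    refine Finset.sum_le_sum fun i hi => ?_
    rw [abs_mul, mul_comm]
    refine mul_le_mul_of_nonneg_right ?_ (abs_nonneg _)
    rw [abs_pow]
    refine (pow_le_pow_left₀ (abs_nonneg _) (hμ c) i).trans (pow_le_pow_right₀ hX ?_)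
    have := Finset.mem_range.1 hi
    omega
  refine le_trans ?_ h1
  rw [qq_eval, abs_mul, Finset.abs_prod]
  refine mul_le_mul_of_nonneg_left ?_ (abs_nonneg _)
  have h2 : γ ^ n = ∏ _c' ∈ Finset.univ.erase c, γ := by
    rw [Finset.prod_const, Finset.card_erase_of_mem (Finset.mem_univ c), Finset.card_univ,
      Fintype.card_fin, Nat.add_sub_cancel]
  rw [h2]
  exact Finset.prod_le_prod (fun _ _ => hγ.le) fun c' hc' => hsep c c' (Finset.ne_of_mem_erase hc').symm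

private theorem QPoly_neg {n : ℕ} (μ ρ : Fin (n + 1) → ℝ) :
    nq (QQ (fun c => -(μ c)) ρ) n = nq (QQ μ ρ) n := by
  have hX : (-Polynomial.X : Polynomial ℝ) = Polynomial.C (-1) * Polynomial.X := by
    rw [Polynomial.C_neg, Polynomial.C_1, neg_one_mul]
  have h1 : QQ (fun c => -(μ c)) ρ = Polynomial.C ((-1) ^ n) * (QQ μ ρ).comp (-Polynomial.X) := by
    unfold QQ
    rw [Polynomial.sum_comp, Finset.mul_sum]
    refine Finset.sum_congr rfl fun c _ => ?_
    rw [Polynomial.mul_comp, Polynomial.C_comp, Polynomial.prod_comp]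
    have h2 : ∏ c' ∈ Finset.univ.erase c, (Polynomial.X - Polynomial.C (-(μ c'))) =
        Polynomial.C ((-1) ^ n) * ∏ c' ∈ Finset.univ.erase c,
          (Polynomial.X - Polynomial.C (μ c')).comp (-Polynomial.X) := by
      have h3 : Polynomial.C ((-1) ^ n : ℝ) = ∏ _c' ∈ Finset.univ.erase c, (-1 : Polynomial ℝ) := by
        rw [Finset.prod_const, Finset.card_erase_of_mem (Finset.mem_univ c), Finset.card_univ,
          Fintype.card_fin, Nat.add_sub_cancel, Polynomial.C_pow, Polynomial.C_neg, Polynomial.C_1]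
      rw [h3, ← Finset.prod_mul_distrib]
      refine Finset.prod_congr rfl fun c' _ => ?_
      rw [Polynomial.sub_comp, Polynomial.X_comp, Polynomial.C_comp, Polynomial.C_neg]
      ring
    rw [h2]
    ring
  unfold nq
  refine Finset.sum_congr rfl fun i _ => ?_
  rw [h1, Polynomial.coeff_C_mul, hX, Polynomial.comp_C_mul_X_coeff, abs_mul, abs_mul,
    abs_pow, abs_pow, abs_neg, abs_one, one_pow, one_pow, one_mul, mul_one]

private noncomputable def QPoly_G (y : ℝ) : PowerSeries ℝ :=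
  PowerSeries.mk fun j => (-1) ^ j * (y⁻¹) ^ (j + 1)

private theorem QPoly_G_mul {y : ℝ} (hy : y ≠ 0) :
    (PowerSeries.X + PowerSeries.C y) * QPoly_G y = 1 := by
  have h0 : y * y⁻¹ = 1 := mul_inv_cancel₀ hy
  ext j
  rw [add_mul, map_add, PowerSeries.coeff_C_mul]
  cases j with
  | zero =>
    rw [PowerSeries.coeff_zero_X_mul, QPoly_G, PowerSeries.coeff_mk, PowerSeries.coeff_one, if_pos rfl]
    rw [pow_zero, zero_add, zero_add, pow_one, one_mul, h0]
  | succ j =>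
    rw [PowerSeries.coeff_succ_X_mul, QPoly_G, PowerSeries.coeff_mk, PowerSeries.coeff_mk,
      PowerSeries.coeff_one, if_neg (Nat.succ_ne_zero j)]
    have e : (-1 : ℝ) ^ j * y⁻¹ ^ (j + 1) + y * ((-1) ^ (j + 1) * y⁻¹ ^ (j + 1 + 1)) =
        (-1 : ℝ) ^ j * y⁻¹ ^ (j + 1) * (1 - y * y⁻¹) := by ring
    rw [e, h0, sub_self, mul_zero]

private theorem QPoly_prod_coeff {ι : Type*} [DecidableEq ι] (s : Finset ι) (y : ι → ℝ)
    (hy : ∀ c, 0 ≤ y c) (b : ℕ) :
    |(∏ c ∈ s, (Polynomial.X + Polynomial.C (y c))).coeff b| ≤ ∏ c ∈ s, (1 + y c) := by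
  induction s using Finset.induction_on generalizing b with
  | empty =>
    rw [Finset.prod_empty, Finset.prod_empty, Polynomial.coeff_one]
    split_ifs
    · rw [abs_one]
    · rw [abs_zero]
      exact zero_le_one
  | insert a s ha ih =>
    rw [Finset.prod_insert ha, Finset.prod_insert ha, add_mul, Polynomial.coeff_add,
      Polynomial.coeff_C_mul, add_mul, one_mul]
    have hP : 0 ≤ ∏ c ∈ s, (1 + y c) := Finset.prod_nonneg fun c _ => by linarith [hy c]
    refine (abs_add_le _ _).trans (add_le_add ?_ ?_)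
    · cases b with
      | zero =>
        rw [Polynomial.mul_coeff_zero, Polynomial.coeff_X_zero, zero_mul, abs_zero]
        exact hP
      | succ b =>
        rw [Polynomial.coeff_X_mul]
        exact ih b
    · rw [abs_mul, abs_of_nonneg (hy a)]
      exact mul_le_mul_of_nonneg_left (ih b) (hy a)

private theorem QPoly_series {n : ℕ} (y ρ : Fin (n + 1) → ℝ) (hy : ∀ c, y c ≠ 0) :
    ((QQ (fun c => -(y c)) ρ : Polynomial ℝ) : PowerSeries ℝ) =
      (∑ c, PowerSeries.C (ρ c) * QPoly_G (y c)) *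
        ((∏ c, (Polynomial.X + Polynomial.C (y c)) : Polynomial ℝ) : PowerSeries ℝ) := by
  have h1 : ((QQ (fun c => -(y c)) ρ : Polynomial ℝ) : PowerSeries ℝ) =
      ∑ c, PowerSeries.C (ρ c) *
        ((∏ c' ∈ Finset.univ.erase c, (Polynomial.X + Polynomial.C (y c')) : Polynomial ℝ) :
          PowerSeries ℝ) := by
    have h2 : QQ (fun c => -(y c)) ρ = ∑ c, Polynomial.C (ρ c) *
        ∏ c' ∈ Finset.univ.erase c, (Polynomial.X + Polynomial.C (y c')) := by
      unfold QQ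
      refine Finset.sum_congr rfl fun c _ => ?_
      congr 1
      refine Finset.prod_congr rfl fun c' _ => ?_
      rw [Polynomial.C_neg, sub_neg_eq_add]
    rw [h2]
    have h3 : ∀ p : Polynomial ℝ, (p : PowerSeries ℝ) = Polynomial.coeToPowerSeries.ringHom p :=
      fun p => rfl
    rw [h3, map_sum]
    refine Finset.sum_congr rfl fun c _ => ?_
    rw [map_mul, ← h3, ← h3, Polynomial.coe_C]
  rw [h1, Finset.sum_mul]
  refine Finset.sum_congr rfl fun c _ => ?_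
  rw [← Finset.mul_prod_erase Finset.univ _ (Finset.mem_univ c), Polynomial.coe_mul,
    Polynomial.coe_add, Polynomial.coe_X, Polynomial.coe_C]
  have h4 := QPoly_G_mul (hy c)
  linear_combination (-(PowerSeries.C (ρ c) *
    ((∏ c' ∈ Finset.univ.erase c, (Polynomial.X + Polynomial.C (y c')) : Polynomial ℝ) :
      PowerSeries ℝ))) * h4

private theorem QPoly_low {n : ℕ} (y ρ : Fin (n + 1) → ℝ) {Y M : ℝ} (hy : ∀ c, 1 ≤ y c ∧ y c ≤ Y)
    (hM : ∀ j ≤ n, |∑ c, ρ c * ((-1) ^ j * ((j.factorial : ℕ) : ℝ) * ((y c)⁻¹) ^ (j + 1))| ≤ M) :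
    nq (QQ y ρ) n ≤ ((n + 1) * (n + 1) * (1 + Y) ^ (n + 1)) * M := by
  have hM0 : 0 ≤ M := (abs_nonneg _).trans (hM 0 (Nat.zero_le n))
  have hY : 0 ≤ Y := by linarith [(hy 0).1, (hy 0).2]
  have hE : ∀ j ≤ n, |PowerSeries.coeff j (∑ c, PowerSeries.C (ρ c) * QPoly_G (y c))| ≤ M := by
    intro j hj
    have h1 : PowerSeries.coeff j (∑ c, PowerSeries.C (ρ c) * QPoly_G (y c)) =
        ∑ c, ρ c * ((-1) ^ j * (y c)⁻¹ ^ (j + 1)) := by
      rw [map_sum]
      refine Finset.sum_congr rfl fun c _ => ?_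
      rw [PowerSeries.coeff_C_mul, QPoly_G, PowerSeries.coeff_mk]
    have h2 : ∑ c, ρ c * ((-1) ^ j * ((j.factorial : ℕ) : ℝ) * ((y c)⁻¹) ^ (j + 1)) =
        ((j.factorial : ℕ) : ℝ) * ∑ c, ρ c * ((-1) ^ j * (y c)⁻¹ ^ (j + 1)) := by
      rw [Finset.mul_sum]
      refine Finset.sum_congr rfl fun c _ => ?_
      ring
    have h3 := hM j hj
    rw [h2, abs_mul] at h3
    rw [h1]
    have h4 : (1 : ℝ) ≤ |((j.factorial : ℕ) : ℝ)| := by
      rw [abs_of_nonneg (Nat.cast_nonneg _)]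
      exact_mod_cast Nat.one_le_iff_ne_zero.2 (Nat.factorial_ne_zero j)
    exact (le_mul_of_one_le_left (abs_nonneg _) h4).trans h3
  have hP : ∀ b, |(∏ c, (Polynomial.X + Polynomial.C (y c))).coeff b| ≤ (1 + Y) ^ (n + 1) := by
    intro b
    refine (QPoly_prod_coeff Finset.univ y (fun c => by linarith [(hy c).1]) b).trans ?_
    have h1 : (1 + Y) ^ (n + 1) = ∏ _c : Fin (n + 1), (1 + Y) := by
      rw [Finset.prod_const, Finset.card_univ, Fintype.card_fin]
    rw [h1]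
    exact Finset.prod_le_prod (fun c _ => by linarith [(hy c).1]) fun c _ => by linarith [(hy c).2]
  have hser := QPoly_series y ρ (fun c => by linarith [(hy c).1])
  have hR : ∀ i ∈ Finset.range (n + 1), |(QQ (fun c => -(y c)) ρ).coeff i| ≤
      (n + 1) * (M * (1 + Y) ^ (n + 1)) := by
    intro i hi
    have hi' : i ≤ n := by
      have := Finset.mem_range.1 hi
      omega
    have h1 : (QQ (fun c => -(y c)) ρ).coeff i = PowerSeries.coeff i
        ((QQ (fun c => -(y c)) ρ : Polynomial ℝ) : PowerSeries ℝ) :=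
      (Polynomial.coeff_coe _ _).symm
    rw [h1, hser, PowerSeries.coeff_mul]
    refine (Finset.abs_sum_le_sum_abs _ _).trans ?_
    refine (Finset.sum_le_card_nsmul _ _ (M * (1 + Y) ^ (n + 1)) fun p hp => ?_).trans ?_
    · have hp' := Finset.HasAntidiagonal.mem_antidiagonal.1 hp
      rw [abs_mul]
      refine mul_le_mul (hE p.1 (by omega)) ?_ (abs_nonneg _) hM0
      rw [Polynomial.coeff_coe]
      exact hP p.2
    · rw [Finset.Nat.card_antidiagonal, nsmul_eq_mul]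
      refine mul_le_mul_of_nonneg_right ?_ (by positivity)
      push_cast
      have : (i : ℝ) ≤ n := by exact_mod_cast hi'
      linarith
  rw [← QPoly_neg y ρ]
  unfold nq
  refine (Finset.sum_le_card_nsmul _ _ _ hR).trans (le_of_eq ?_)
  rw [Finset.card_range, nsmul_eq_mul]
  push_cast
  ring

private theorem QPoly_deriv (m : ℕ) {t : ℝ} (ht : 0 < t) :
    HasDerivAt (fun t : ℝ => (-1) ^ m * ((m.factorial : ℕ) : ℝ) * (t⁻¹) ^ (m + 1))
      ((-1) ^ (m + 1) * (((m + 1).factorial : ℕ) : ℝ) * (t⁻¹) ^ (m + 1 + 1)) t := by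
  have h1 := ((hasDerivAt_inv ht.ne').pow (m + 1)).const_mul ((-1) ^ m * ((m.factorial : ℕ) : ℝ))
  have e : (-1) ^ m * ((m.factorial : ℕ) : ℝ) * (((m + 1 : ℕ) : ℝ) * t⁻¹ ^ (m + 1 - 1) * -(t ^ 2)⁻¹) =
      (-1) ^ (m + 1) * (((m + 1).factorial : ℕ) : ℝ) * (t⁻¹) ^ (m + 1 + 1) := by
    rw [Nat.factorial_succ, Nat.add_sub_cancel, ← inv_pow]
    push_cast
    ring
  rw [e] at h1
  exact h1

theorem qq_frac (n : ℕ) (X : ℝ) (hX : 1 ≤ X) : ∃ c₁ C : ℝ, 0 < c₁ ∧ 0 ≤ C ∧ ∀ (μ ρ : Fin (n + 1) → ℝ),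
    (∀ c, 0 ≤ μ c ∧ μ c ≤ X) → ∀ x : ℝ, 1 ≤ x → x ≤ 3 →
      (∀ j ≤ n + 1, |∑ c, ρ c * ((-1) ^ j * ((j.factorial : ℕ) : ℝ) * ((x + μ c)⁻¹) ^ (j + 1))| ≤ C * nq (QQ μ ρ) n) ∧
      ∃ j ≤ n, c₁ * nq (QQ μ ρ) n ≤ |∑ c, ρ c * ((-1) ^ j * ((j.factorial : ℕ) : ℝ) * ((x + μ c)⁻¹) ^ (j + 1))| := by
  obtain ⟨C1, hC1, hdiv⟩ := div_bound n (X + 3) (by linarith)
  obtain ⟨C2, hC2, hsh⟩ := qq_shift n 3 (by norm_num)
  have hK : 0 ≤ C2 * ((n + 1) * (n + 1) * (1 + (X + 3)) ^ (n + 1)) := by positivity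
  refine ⟨(C2 * ((n + 1) * (n + 1) * (1 + (X + 3)) ^ (n + 1)) + 1)⁻¹,
    C1 * (((2 * n + 1).factorial : ℕ) : ℝ) * C2, by positivity, by positivity,
    fun μ ρ hμ x hx1 hx3 => ⟨fun j hj => ?_, ?_⟩⟩
  · have hnode : ∀ c, 1 ≤ (fun c => x + μ c) c ∧ (fun c => x + μ c) c ≤ X + 3 := fun c =>
      ⟨by show 1 ≤ x + μ c; linarith [(hμ c).1], by show x + μ c ≤ X + 3; linarith [(hμ c).2]⟩
    have h1 := hdiv (fun c => x + μ c) ρ hnode
      (fun i t => (-1) ^ (i + j) * (((i + j).factorial : ℕ) : ℝ) * (t⁻¹) ^ (i + j + 1))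
      (fun i t ht => by
        have h2 := QPoly_deriv (i + j) ht
        have e : i + 1 + j = i + j + 1 := by ring
        show HasDerivAt _ ((-1) ^ (i + 1 + j) * (((i + 1 + j).factorial : ℕ) : ℝ) *
          (t⁻¹) ^ (i + 1 + j + 1)) t
        rw [e]
        exact h2)
      (((2 * n + 1).factorial : ℕ) : ℝ) (Nat.cast_nonneg _) (fun i hi t ht1 _ => by
        show |(-1) ^ (i + j) * (((i + j).factorial : ℕ) : ℝ) * (t⁻¹) ^ (i + j + 1)| ≤ _
        rw [abs_mul, abs_mul, abs_pow, abs_neg, abs_one, one_pow, one_mul,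
          abs_of_nonneg (Nat.cast_nonneg _), abs_of_nonneg (by positivity)]
        have h3 : t⁻¹ ^ (i + j + 1) ≤ 1 := pow_le_one₀ (by positivity) (inv_le_one_of_one_le₀ ht1)
        have h4 : (((i + j).factorial : ℕ) : ℝ) ≤ (((2 * n + 1).factorial : ℕ) : ℝ) := by
          exact_mod_cast Nat.factorial_le (by omega)
        exact (mul_le_of_le_one_right (Nat.cast_nonneg _) h3).trans h4)
    simp only [zero_add] at h1
    refine h1.trans ?_
    have h5 := hsh μ ρ x (by rw [abs_of_nonneg (by linarith)]; exact hx3)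
    refine (mul_le_mul_of_nonneg_left h5 (by positivity)).trans (le_of_eq ?_)
    ring
  · by_contra hcon
    push Not at hcon
    have hnode : ∀ c, 1 ≤ (fun c => x + μ c) c ∧ (fun c => x + μ c) c ≤ X + 3 := fun c =>
      ⟨by show 1 ≤ x + μ c; linarith [(hμ c).1], by show x + μ c ≤ X + 3; linarith [(hμ c).2]⟩
    have h1 := QPoly_low (fun c => x + μ c) ρ (M := (C2 * ((n + 1) * (n + 1) *
      (1 + (X + 3)) ^ (n + 1)) + 1)⁻¹ * nq (QQ μ ρ) n) hnode (fun j hj => (hcon j hj).le)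
    have h2 := hsh (fun c => x + μ c) ρ (-x) (by rw [abs_neg, abs_of_nonneg (by linarith)]; exact hx3)
    have e : (fun c => -x + (x + μ c)) = μ := by
      funext c
      ring
    simp only [e] at h2
    have h3 : nq (QQ μ ρ) n ≤ C2 * ((n + 1) * (n + 1) * (1 + (X + 3)) ^ (n + 1)) *
        ((C2 * ((n + 1) * (n + 1) * (1 + (X + 3)) ^ (n + 1)) + 1)⁻¹ * nq (QQ μ ρ) n) := by
      refine h2.trans ((mul_le_mul_of_nonneg_left h1 hC2).trans (le_of_eq ?_))
      ring
    have h4 : 0 < nq (QQ μ ρ) n := by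
      have h5 := (abs_nonneg _).trans_lt (hcon 0 (Nat.zero_le n))
      have h6 := QPoly_nq_nonneg (QQ μ ρ) n
      rcases h6.eq_or_lt with h7 | h7
      · rw [← h7, mul_zero] at h5
        exact absurd h5 (lt_irrefl _)
      · exact h7
    generalize C2 * ((n + 1) * (n + 1) * (1 + (X + 3)) ^ (n + 1)) = K at hK h3
    have h8 : K * ((K + 1)⁻¹ * nq (QQ μ ρ) n) < nq (QQ μ ρ) n := by
      have h9 : K * (K + 1)⁻¹ < 1 := by
        rw [mul_inv_lt_iff₀ (by linarith)]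
        linarith
      rw [← mul_assoc]
      exact mul_lt_of_lt_one_left h4 h9
    linarith

end Pool.Agent.Lib.MP_ec260d_ntD
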