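import Mathlib
import Pool.Agent.Lib.MP_ec260d_ntD.R.Gest
import Pool.Agent.Lib.MP_ec260d_ntD.R.QPoly

/-!
# JOB R/NonFl: the functions `Ei` are not flat (about 150 lines)

Write `Gi (omv S) S i y = (-1)^(i+1) (i-1)! y^(-i) + η_i(y)`, `η_{i+1} = η_i'` on `(0, ∞)` for `i ≥ 1` (`G_deriv` and the derivative of `y^(-i)`), `|η_i| ≤ C/omv S` on `[1, X + 3]` for `1 ≤ i ≤ 2n + 3` (`G_est`).
For `1 ≤ i ≤ n + 2`: `Ei S μ ρ i x = -∑ ρ_c (-1)^(i-1) (i-1)! (x + μ_c)^(-i) - ∑ ρ_c η_i(x + μ_c)` (with `j = i - 1`, `(-1)^(i+1) = (-1)^(i-1)`).  The first sum is treated by `qq_frac` (`j = i - 1`), the second is `≤ C (C/omv S) nq (QQ (x + μ) ρ) n ≤ C' /omv S * nq (QQ μ ρ) n` by `div_bound` (functions `f j = η_{i+j}`) and `qq_shift`.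
For `S` large (`omv S → ∞`) the error is `≤ c₁/2 * nq (QQ μ ρ) n`.
-/

namespace Pool.Agent.Lib.MP_ec260d_ntD

open Real

private theorem NonFl_nq_nonneg (Q : Polynomial ℝ) (n : ℕ) : 0 ≤ nq Q n :=
  Finset.sum_nonneg fun _ _ => abs_nonneg _

/-- the error terms -/
private noncomputable def NonFl_eta (S : ℝ) (i : ℕ) (y : ℝ) : ℝ :=
  Gi (omv S) S i y - (-1) ^ (i + 1) * (((i - 1).factorial : ℕ) : ℝ) * (y⁻¹) ^ i

private theorem NonFl_eta_deriv (S : ℝ) (hS : 0 ≤ S) (i : ℕ) (hi : 1 ≤ i) (y : ℝ) (hy : 0 < y) :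
    HasDerivAt (NonFl_eta S i) (NonFl_eta S (i + 1) y) y := by
  have h1 := G_deriv (omv S) S hS i y hy.le
  have h2 : HasDerivAt (fun y : ℝ => (y⁻¹) ^ i) ((i : ℝ) * (y⁻¹) ^ (i - 1) * (-(y ^ 2)⁻¹)) y :=
    (hasDerivAt_inv hy.ne').pow i
  have h3 := h1.sub (h2.const_mul ((-1) ^ (i + 1) * (((i - 1).factorial : ℕ) : ℝ)))
  have h4 : NonFl_eta S (i + 1) y = Gi (omv S) S (i + 1) y -
      (-1) ^ (i + 1) * (((i - 1).factorial : ℕ) : ℝ) *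
        ((i : ℝ) * (y⁻¹) ^ (i - 1) * (-(y ^ 2)⁻¹)) := by
    obtain ⟨k, rfl⟩ : ∃ k, i = k + 1 := ⟨i - 1, by omega⟩
    simp only [NonFl_eta, Nat.add_sub_cancel]
    rw [Nat.factorial_succ]
    push_cast
    rw [← inv_pow]
    ring
  rw [h4]
  exact h3

theorem nonflat (n : ℕ) (X : ℝ) (hX : 1 ≤ X) : ∃ c C S₀ : ℝ, 0 < c ∧ 0 ≤ C ∧ 1 ≤ S₀ ∧ ∀ S : ℝ, S₀ ≤ S →
    ∀ μ ρ : Fin (n + 1) → ℝ, (∀ c, 0 ≤ μ c ∧ μ c ≤ X) → ∀ x : ℝ, 1 ≤ x → x ≤ 3 →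
      (∀ i, 1 ≤ i → i ≤ n + 2 → |Ei S μ ρ i x| ≤ C * nq (QQ μ ρ) n) ∧
      ∃ i, 1 ≤ i ∧ i ≤ n + 1 ∧ c * nq (QQ μ ρ) n ≤ |Ei S μ ρ i x| := by
  obtain ⟨C2, S2, hC2, hS2, hG⟩ := G_est (2 * n + 3) (X + 3) (by linarith)
  obtain ⟨C3, hC3, hdiv⟩ := div_bound n (X + 3) (by linarith)
  obtain ⟨C4, hC4, hsh⟩ := qq_shift n 3 (by norm_num)
  obtain ⟨c1, C5, hc1, hC5, hfr⟩ := qq_frac n X hX
  obtain ⟨S3, hS3⟩ := Filter.eventually_atTop.1
    (omv_tendsto.eventually_ge_atTop (max 1 (2 * (C3 * C2 * C4) / c1)))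
  refine ⟨c1 / 2, C5 + c1 / 2, max 1 (max S2 S3), by positivity, by positivity, le_max_left _ _, ?_⟩
  intro S hS μ ρ hμ x hx1 hx3
  have hS1 : 1 ≤ S := (le_max_left _ _).trans hS
  have hSS2 : S2 ≤ S := ((le_max_left _ _).trans (le_max_right _ _)).trans hS
  have hSS3 : S3 ≤ S := ((le_max_right _ _).trans (le_max_right _ _)).trans hS
  have hom := hS3 S hSS3
  have hom1 : 1 ≤ omv S := (le_max_left _ _).trans hom
  have hom2 : 2 * (C3 * C2 * C4) / c1 ≤ omv S := (le_max_right _ _).trans hom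
  have hom0 : 0 < omv S := by linarith
  set N : ℝ := nq (QQ μ ρ) n with hN
  have hN0 : 0 ≤ N := NonFl_nq_nonneg _ _
  have hNs : nq (QQ (fun c => x + μ c) ρ) n ≤ C4 * N :=
    hsh μ ρ x (by rw [abs_le]; constructor <;> linarith)
  have hNs0 : 0 ≤ nq (QQ (fun c => x + μ c) ρ) n := NonFl_nq_nonneg _ _
  -- the error term
  have herr : ∀ i, 1 ≤ i → i ≤ n + 2 → |∑ c, ρ c * NonFl_eta S i (x + μ c)| ≤ c1 / 2 * N := by
    intro i hi1 hi2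
    have h1 := hdiv (fun c => x + μ c) ρ (fun c => ⟨by linarith [(hμ c).1], by linarith [(hμ c).2]⟩)
      (fun j => NonFl_eta S (i + j))
      (fun j t ht => NonFl_eta_deriv S (by linarith) (i + j) (by omega) t ht)
      (C2 / omv S) (by positivity)
      (fun j hj t ht1 ht2 => hG S hSS2 (i + j) (by omega) (by omega) t ht1 ht2)
    simp only [Nat.add_zero] at h1
    have h2 : C3 * (C2 / omv S) * nq (QQ (fun c => x + μ c) ρ) n ≤ C3 * (C2 / omv S) * (C4 * N) :=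
      mul_le_mul_of_nonneg_left hNs (by positivity)
    have h3 : C3 * (C2 / omv S) * C4 ≤ c1 / 2 := by
      rw [div_le_iff₀ hc1] at hom2
      have : C3 * (C2 / omv S) * C4 = (C3 * C2 * C4) / omv S := by ring
      rw [this, div_le_iff₀ hom0]
      linarith
    calc |∑ c, ρ c * NonFl_eta S i (x + μ c)| ≤ C3 * (C2 / omv S) * nq (QQ (fun c => x + μ c) ρ) n := h1
      _ ≤ C3 * (C2 / omv S) * (C4 * N) := h2
      _ = (C3 * (C2 / omv S) * C4) * N := by ring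
      _ ≤ c1 / 2 * N := mul_le_mul_of_nonneg_right h3 hN0
  -- the decomposition
  have hdec : ∀ j, j ≤ n + 1 → Ei S μ ρ (j + 1) x =
      -(∑ c, ρ c * ((-1) ^ j * ((j.factorial : ℕ) : ℝ) * ((x + μ c)⁻¹) ^ (j + 1))) -
        ∑ c, ρ c * NonFl_eta S (j + 1) (x + μ c) := by
    intro j _
    rw [Ei, ← neg_add', ← Finset.sum_add_distrib]
    congr 1
    refine Finset.sum_congr rfl fun c _ => ?_
    simp only [NonFl_eta, Nat.add_sub_cancel]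
    ring
  obtain ⟨hup, j0, hj0, hlow⟩ := hfr μ ρ hμ x hx1 hx3
  constructor
  · intro i hi1 hi2
    obtain ⟨j, rfl⟩ : ∃ j, i = j + 1 := ⟨i - 1, by omega⟩
    rw [hdec j (by omega)]
    have h1 := hup j (by omega)
    have h2 := herr (j + 1) hi1 hi2
    rw [abs_le] at h1 h2 ⊢
    constructor
    · nlinarith [h1.1, h1.2, h2.1, h2.2]
    · nlinarith [h1.1, h1.2, h2.1, h2.2]
  · refine ⟨j0 + 1, by omega, by omega, ?_⟩
    rw [hdec j0 (by omega)]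
    have h2 := herr (j0 + 1) (by omega) (by omega)
    have h3 := abs_sub_abs_le_abs_sub
      (∑ c, ρ c * ((-1) ^ j0 * ((j0.factorial : ℕ) : ℝ) * ((x + μ c)⁻¹) ^ (j0 + 1)))
      (-(∑ c, ρ c * NonFl_eta S (j0 + 1) (x + μ c)))
    rw [abs_neg, sub_neg_eq_add] at h3
    rw [← neg_add', abs_neg]
    linarith

end Pool.Agent.Lib.MP_ec260d_ntD
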