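import Mathlib
import Pool.Agent.Lib.MP_ec260d_nt.Sublevel

/-!
# JOB R/SubM: measure of sublevel sets (about 150 lines)

Let `N` be a natural number with `N ≥ 4 A/c + 2`, cut `[1, 3]` into `N` intervals `K_i` of length `2/N ≤ c/(2A)`.  On `K_i` with left end `x₀` there is `j`, `1 ≤ j ≤ n`, with `|f j x₀| ≥ c`; by the mean value theorem (`|f (j+1)| ≤ A`) `|f j| ≥ c/2` on `K_i`, with constant sign (continuity).
By `sublevel` (Sublevel.lean, `m = j`, `lam = c/2`) the set `{x ∈ K_i : |f 0 x| ≤ η}` is contained in at most `2^j` intervals of length `≤ 4 (2η/c)^(1/j)`, so it has measure `≤ 2^n * 4 * max(1, 2/c) * η^(1/n)` (as `η ≤ 1`, `1/j ≥ 1/n`, `η^(1/j) ≤ η^(1/n)`; `(2/c)^(1/j) ≤ max 1 (2/c)`).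
Sum over the `N` intervals.
-/

namespace Pool.Agent.Lib.MP_ec260d_ntD

open Real Set MeasureTheory

private theorem SubM_len (n j : ℕ) (hj : 1 ≤ j) (hjn : j ≤ n) (c η : ℝ) (hc : 0 < c) (hη : 0 < η)
    (hη1 : η ≤ 1) :
    (η / (c / 2)) ^ ((1 : ℝ) / j) ≤ max 1 (2 / c) * η ^ ((1 : ℝ) / n) := by
  have hj0 : (0 : ℝ) < j := by exact_mod_cast hj
  have hn0 : (0 : ℝ) < n := by exact_mod_cast (lt_of_lt_of_le hj hjn)
  have hjn' : (j : ℝ) ≤ n := by exact_mod_cast hjn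
  have e1 : η / (c / 2) = (2 / c) * η := by field_simp
  rw [e1, Real.mul_rpow (by positivity) hη.le]
  have h1 : η ^ ((1 : ℝ) / j) ≤ η ^ ((1 : ℝ) / n) := by
    refine Real.rpow_le_rpow_of_exponent_ge hη hη1 ?_
    exact one_div_le_one_div_of_le hj0 hjn'
  have h2 : (2 / c) ^ ((1 : ℝ) / j) ≤ max 1 (2 / c) := by
    have h3 : (2 / c) ^ ((1 : ℝ) / j) ≤ (max 1 (2 / c)) ^ ((1 : ℝ) / j) :=
      Real.rpow_le_rpow (by positivity) (le_max_right _ _) (by positivity)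
    have h4 : (max 1 (2 / c)) ^ ((1 : ℝ) / j) ≤ (max 1 (2 / c)) ^ (1 : ℝ) := by
      refine Real.rpow_le_rpow_of_exponent_le (le_max_left _ _) ?_
      rw [div_le_one hj0]
      exact_mod_cast hj
    rw [Real.rpow_one] at h4
    exact h3.trans h4
  exact mul_le_mul h2 h1 (Real.rpow_nonneg hη.le _) (le_trans zero_le_one (le_max_left _ _))

private theorem SubM_cell (n : ℕ) (c A : ℝ) (hc : 0 < c) (hA0 : 0 < A) (a b : ℝ)
    (hab : a ≤ b) (hlen : b - a ≤ c / (2 * A)) (f : ℕ → ℝ → ℝ)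
    (hd : ∀ j ≤ n, ∀ x ∈ Icc a b, HasDerivAt (f j) (f (j + 1) x) x)
    (hA : ∀ x ∈ Icc a b, ∀ j, 1 ≤ j → j ≤ n + 1 → |f j x| ≤ A)
    (hex : ∃ j, 1 ≤ j ∧ j ≤ n ∧ c ≤ |f j a|) (η : ℝ) (hη : 0 < η) (hη1 : η ≤ 1) :
    volume {x : ℝ | x ∈ Icc a b ∧ |f 0 x| ≤ η} ≤
      ENNReal.ofReal (2 ^ n * (4 * (max 1 (2 / c) * η ^ ((1 : ℝ) / n)))) := by
  obtain ⟨j, hj1, hjn, hja⟩ := hex
  have hosc : ∀ x ∈ Icc a b, |f j x - f j a| ≤ c / 2 := by
    intro x hx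
    have h1 := Convex.norm_image_sub_le_of_norm_hasDerivWithin_le (f := f j) (f' := f (j + 1))
      (C := A) (s := Icc a b) (x := a) (y := x)
      (fun y hy => (hd j hjn y hy).hasDerivWithinAt)
      (fun y hy => by
        rw [Real.norm_eq_abs]
        exact hA y hy (j + 1) (by omega) (by omega))
      (convex_Icc a b) (left_mem_Icc.2 hab) hx
    rw [Real.norm_eq_abs, Real.norm_eq_abs] at h1
    refine h1.trans ?_
    rw [abs_of_nonneg (by linarith [hx.1])]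
    have h2 : A * (x - a) ≤ A * (c / (2 * A)) :=
      mul_le_mul_of_nonneg_left (by linarith [hx.2]) hA0.le
    have h3 : A * (c / (2 * A)) = c / 2 := by field_simp
    linarith
  have hsign : (∀ t ∈ Icc a b, c / 2 ≤ f j t) ∨ (∀ t ∈ Icc a b, f j t ≤ -(c / 2)) := by
    rcases le_abs.1 hja with h | h
    · left
      intro t ht
      have h1 := (abs_le.1 (hosc t ht)).1
      linarith
    · right
      intro t ht
      have h1 := (abs_le.1 (hosc t ht)).2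
      linarith
  obtain ⟨S, hS1, hS2, hS3⟩ := Pool.Agent.Lib.MP_ec260d_nt.sublevel j hj1 f a b (c / 2) η hab
    (by positivity) hη (fun i hi => hd i (by omega)) hsign
  have hL := SubM_len n j hj1 hjn c η hc hη hη1
  have hsub : {x : ℝ | x ∈ Icc a b ∧ |f 0 x| ≤ η} ⊆ ⋃ J ∈ S, Icc J.1 J.2 := by
    rintro x ⟨hx, hx0⟩
    obtain ⟨J, hJ, h1, h2⟩ := hS3 x hx hx0
    exact Set.mem_iUnion₂.2 ⟨J, hJ, h1, h2⟩
  refine (measure_mono hsub).trans ((measure_biUnion_finset_le S _).trans ?_)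
  have hM0 : 0 ≤ 4 * (max 1 (2 / c) * η ^ ((1 : ℝ) / n)) := by
    have := le_trans zero_le_one (le_max_left (1 : ℝ) (2 / c))
    positivity
  calc ∑ J ∈ S, volume (Icc J.1 J.2)
      ≤ ∑ J ∈ S, ENNReal.ofReal (4 * (max 1 (2 / c) * η ^ ((1 : ℝ) / n))) := by
        refine Finset.sum_le_sum fun J hJ => ?_
        rw [Real.volume_Icc]
        refine ENNReal.ofReal_le_ofReal ((hS2 J hJ).trans ?_)
        linarith
    _ = ENNReal.ofReal ((S.card : ℝ) * (4 * (max 1 (2 / c) * η ^ ((1 : ℝ) / n)))) := by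
        rw [Finset.sum_const, nsmul_eq_mul, ← ENNReal.ofReal_natCast,
          ← ENNReal.ofReal_mul (Nat.cast_nonneg _)]
    _ ≤ ENNReal.ofReal (2 ^ n * (4 * (max 1 (2 / c) * η ^ ((1 : ℝ) / n)))) := by
        refine ENNReal.ofReal_le_ofReal (mul_le_mul_of_nonneg_right ?_ hM0)
        have h1 : S.card ≤ 2 ^ n := hS1.trans (Nat.pow_le_pow_right (by norm_num) hjn)
        exact_mod_cast h1

theorem sub_meas (n : ℕ) (hn : 1 ≤ n) (c A : ℝ) (hc : 0 < c) : ∃ C : ℝ, 0 ≤ C ∧ ∀ f : ℕ → ℝ → ℝ,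
    (∀ j ≤ n, ∀ x ∈ Icc (1 : ℝ) 3, HasDerivAt (f j) (f (j + 1) x) x) →
    (∀ x ∈ Icc (1 : ℝ) 3, ∀ j, 1 ≤ j → j ≤ n + 1 → |f j x| ≤ A) →
    (∀ x ∈ Icc (1 : ℝ) 3, ∃ j, 1 ≤ j ∧ j ≤ n ∧ c ≤ |f j x|) →
    ∀ η : ℝ, 0 < η → η ≤ 1 →
      volume {x : ℝ | x ∈ Icc (1 : ℝ) 3 ∧ |f 0 x| ≤ η} ≤ ENNReal.ofReal (C * η ^ ((1 : ℝ) / n)) := by
  obtain ⟨B, hB⟩ : ∃ B : ℝ, B = max A 1 := ⟨_, rfl⟩
  have hB1 : 1 ≤ B := by rw [hB]; exact le_max_right _ _
  have hAB : A ≤ B := by rw [hB]; exact le_max_left _ _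
  have hB0 : 0 < B := by linarith
  obtain ⟨N, hN⟩ : ∃ N : ℕ, N = ⌈4 * B / c⌉₊ + 1 := ⟨_, rfl⟩
  have hN0 : (0 : ℝ) < N := by
    rw [hN]
    positivity
  have hNge : 4 * B / c ≤ N := by
    have h1 := Nat.le_ceil (4 * B / c)
    rw [hN, Nat.cast_add, Nat.cast_one]
    linarith
  have hstep : 2 / (N : ℝ) ≤ c / (2 * B) := by
    rw [div_le_div_iff₀ hN0 (by positivity)]
    rw [div_le_iff₀ hc] at hNge
    linarith
  have hmax0 : 0 ≤ max 1 (2 / c) := le_trans zero_le_one (le_max_left _ _)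
  refine ⟨N * (2 ^ n * (4 * max 1 (2 / c))), by positivity, ?_⟩
  intro f hd hbd hex η hη hη1
  have hcell : ∀ i ∈ Finset.range N,
      volume {x : ℝ | x ∈ Icc (1 + i * (2 / (N : ℝ))) (1 + (i + 1) * (2 / (N : ℝ))) ∧ |f 0 x| ≤ η} ≤
        ENNReal.ofReal (2 ^ n * (4 * (max 1 (2 / c) * η ^ ((1 : ℝ) / n)))) := by
    intro i hi
    have hi' : (i : ℝ) + 1 ≤ N := by
      have h1 := Finset.mem_range.1 hi
      exact_mod_cast h1
    have hs0 : 0 < 2 / (N : ℝ) := by positivity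
    have hi0 : (0 : ℝ) ≤ i := Nat.cast_nonneg i
    have hend : ((i : ℝ) + 1) * (2 / (N : ℝ)) ≤ 2 := by
      have h1 := mul_le_mul_of_nonneg_right hi' hs0.le
      have h2 : (N : ℝ) * (2 / (N : ℝ)) = 2 := by field_simp
      linarith
    have hsubI : Icc (1 + i * (2 / (N : ℝ))) (1 + (i + 1) * (2 / (N : ℝ))) ⊆ Icc (1 : ℝ) 3 := by
      refine Icc_subset_Icc ?_ ?_
      · have := mul_nonneg hi0 hs0.le
        linarith
      · linarith
    have hle : 1 + i * (2 / (N : ℝ)) ≤ 1 + (i + 1) * (2 / (N : ℝ)) := by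
      have h3 : (i + 1) * (2 / (N : ℝ)) = i * (2 / (N : ℝ)) + 2 / (N : ℝ) := by ring
      linarith
    refine SubM_cell n c B hc hB0 _ _ hle ?_ f (fun j hj x hx => hd j hj x (hsubI hx))
      (fun x hx j h1 h2 => (hbd x (hsubI hx) j h1 h2).trans hAB)
      (hex _ (hsubI (left_mem_Icc.2 hle))) η hη hη1
    have h3 : 1 + (i + 1) * (2 / (N : ℝ)) - (1 + i * (2 / (N : ℝ))) = 2 / (N : ℝ) := by ring
    rw [h3]
    exact hstep
  have hcov : {x : ℝ | x ∈ Icc (1 : ℝ) 3 ∧ |f 0 x| ≤ η} ⊆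
      ⋃ i ∈ Finset.range N, {x : ℝ | x ∈ Icc (1 + i * (2 / (N : ℝ))) (1 + (i + 1) * (2 / (N : ℝ))) ∧
        |f 0 x| ≤ η} := by
    rintro x ⟨hx, hx0⟩
    have hs0 : 0 < 2 / (N : ℝ) := by positivity
    have hNN : (N : ℝ) * (2 / (N : ℝ)) = 2 := by field_simp
    by_cases hx3 : x = 3
    · have hN1 : 1 ≤ N := by omega
      refine Set.mem_iUnion₂.2 ⟨N - 1, Finset.mem_range.2 (by omega), ⟨?_, ?_⟩, hx0⟩
      · rw [Nat.cast_sub hN1, Nat.cast_one]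
        have h3 : 1 + ((N : ℝ) - 1) * (2 / (N : ℝ)) = 1 + N * (2 / (N : ℝ)) - 2 / (N : ℝ) := by ring
        rw [h3, hNN]
        linarith
      · rw [Nat.cast_sub hN1, Nat.cast_one, sub_add_cancel, hNN]
        linarith
    · have hx3' : x < 3 := lt_of_le_of_ne hx.2 hx3
      have hy0 : 0 ≤ (x - 1) / (2 / (N : ℝ)) := div_nonneg (by linarith [hx.1]) hs0.le
      refine Set.mem_iUnion₂.2 ⟨⌊(x - 1) / (2 / (N : ℝ))⌋₊, Finset.mem_range.2 ?_, ⟨?_, ?_⟩, hx0⟩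
      · rw [Nat.floor_lt hy0, div_lt_iff₀ hs0, hNN]
        linarith
      · have h1 := Nat.floor_le hy0
        rw [le_div_iff₀ hs0] at h1
        linarith
      · have h1 := (Nat.lt_floor_add_one ((x - 1) / (2 / (N : ℝ)))).le
        rw [div_le_iff₀ hs0] at h1
        linarith
  refine (measure_mono hcov).trans ((measure_biUnion_finset_le _ _).trans
    ((Finset.sum_le_sum hcell).trans ?_))
  rw [Finset.sum_const, Finset.card_range, nsmul_eq_mul, ← ENNReal.ofReal_natCast,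
    ← ENNReal.ofReal_mul (Nat.cast_nonneg N)]
  refine ENNReal.ofReal_le_ofReal (le_of_eq ?_)
  ring

end Pool.Agent.Lib.MP_ec260d_ntD
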