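import Mathlib
import Pool.Agent.Lib.MP_ec260d_ntD.R.NonFl
import Pool.Agent.Lib.MP_ec260d_ntD.R.SubM

/-!
# JOB R/ResOne: one linear combination of slopes is rarely small (about 250 lines)

Let `S = LL T`, `ω₁ = omv S = log (T/(2π))` (`vv_LL`), `μ_c = m_c/S ∈ [0, X]` (`S ≥ T log T/8` for large `T`, `X = 8 C₁ + 1`), `|μ_c - μ_c'| ≥ γ T log T/S ≥ γ` (`S ≤ T log T`; even better).
Let `E_0(x) = ω₁ ∑ ρ_c - ∑ ρ_c Gi ω₁ S 0 (x + μ_c)`, `E_i = Ei S μ ρ i` for `i ≥ 1`: successive derivatives (`G_deriv`).  By definition of `Gi .. 0` and `psn_zero`: `E_0(x) = ω₁² ∑ ρ_c /omv (S (x + μ_c))`.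
For `a ∈ [T, 2T]` put `x = LL a/S ∈ [1, 3]` (for large `T`: `LL (2T) ≤ 3 LL T`); `∑ ρ_c slp (m c) a = log (a/(2π)) ∑ ρ_c/omv (S (x + μ_c)) = log (a/(2π)) ω₁^(-2) E_0(x)`; so `|∑ ρ_c slp (m c) a| ≤ τ` implies `|E_0(x)| ≤ ω₁² τ/log (a/(2π)) ≤ (log T)² τ`.
Let `q = nq (QQ μ ρ) n ≥ r₀ γ^n/X^n > 0` (`qq_lower` for `c` with `|ρ c| ≥ r₀`).  By `nonflat` the functions `f_i = E_i/q` satisfy the hypotheses of `sub_meas` (with `n + 1` for `n`); with `η = (log T)² τ/q` (if `η ≤ 1`) the set of the `x` has measure `≤ C η^(1/(n+1)) ≤ C X ((log T)² τ/(r₀ γ^n))^(1/(n+1))`.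
If `η > 1` then `(log T)² τ/(r₀ γ^n) ≥ X^(-n)`, and the claim is trivial with `C ≥ X` (measure of `Icc T (2T)` is `T`).
Back to `a`: the map `a ↦ x = LL a/S` is increasing with derivative `log (a/(2π))/(2π S) ≥ 1/(100 T)`... (`S ≤ T log T/6`), so `|x - x'| ≥ |a - a'|/(100 T)` and the measure of a set of `a` is at most `100 T` times the (outer) measure of its image
(use `MeasureTheory.hausdorffMeasure_real`, `LipschitzOnWith.hausdorffMeasure_image_le` for the inverse map, or the explicit intervals: `sub_meas` also holds for the preimages of intervals).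
-/

namespace Pool.Agent.Lib.MP_ec260d_ntD

open Real Set MeasureTheory

/-- a map which expands distances does not make preimages larger -/
theorem vol_expand (f : ℝ → ℝ) (S B : Set ℝ) (κ : ℝ) (hκ : 0 < κ)
    (hf : ∀ x ∈ S, ∀ y ∈ S, κ * |x - y| ≤ |f x - f y|) :
    volume (S ∩ f ⁻¹' B) ≤ ENNReal.ofReal κ⁻¹ * volume B := by
  have hK : AntilipschitzWith (Real.toNNReal κ⁻¹) (fun x : S => f x) := by
    refine AntilipschitzWith.of_le_mul_dist fun x y => ?_
    rw [Real.coe_toNNReal _ (inv_pos.2 hκ).le, Subtype.dist_eq, Real.dist_eq, Real.dist_eq]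
    have h := hf x x.2 y y.2
    rw [inv_mul_eq_div, le_div_iff₀ hκ, mul_comm]
    exact h
  have h1 := hK.hausdorffMeasure_preimage_le (d := 1) zero_le_one B
  have h2 : volume (S ∩ f ⁻¹' B) = Measure.hausdorffMeasure 1 ((fun x : S => f x) ⁻¹' B) := by
    have h3 := (isometry_subtype_coe (s := S)).hausdorffMeasure_image (d := 1)
      (Or.inl zero_le_one) ((fun x : S => f x) ⁻¹' B)
    rw [← hausdorffMeasure_real, ← h3]
    congr 1
    ext x
    constructor
    · rintro ⟨hx, hxB⟩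
      exact ⟨⟨x, hx⟩, hxB, rfl⟩
    · rintro ⟨⟨y, hy⟩, hyB, rfl⟩
      exact ⟨hy, hyB⟩
  rw [h2, ← hausdorffMeasure_real]
  rw [ENNReal.rpow_one] at h1
  exact h1

private theorem resone_conv {a b : ℝ} (ha : 0 < a) (hb : 0 < b) :
    Real.log (b / (2 * Real.pi)) * ((a - b) / (2 * Real.pi)) ≤
      Pool.Agent.Lib.MP_ec260d_ntB.LL a - Pool.Agent.Lib.MP_ec260d_ntB.LL b := by
  unfold Pool.Agent.Lib.MP_ec260d_ntB.LL
  have hpi := Real.pi_pos
  obtain ⟨v, hv⟩ : ∃ v, v = a / (2 * Real.pi) := ⟨_, rfl⟩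
  obtain ⟨w, hw⟩ : ∃ w, w = b / (2 * Real.pi) := ⟨_, rfl⟩
  have hv0 : 0 < v := by rw [hv]; positivity
  have hw0 : 0 < w := by rw [hw]; positivity
  rw [sub_div, ← hv, ← hw]
  have h1 := Real.log_le_sub_one_of_pos (show 0 < w / v by positivity)
  rw [Real.log_div hw0.ne' hv0.ne'] at h1
  have h2 := mul_le_mul_of_nonneg_left h1 hv0.le
  have h3 : v * (w / v - 1) = w - v := by field_simp
  rw [h3] at h2
  linarith

private theorem resone_two_pi : Real.log (2 * Real.pi) ≤ 2 ∧ 0 ≤ Real.log (2 * Real.pi) := by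
  have h1 := Real.exp_one_gt_d9
  have h2 := Real.pi_lt_d2
  have h3 := Real.pi_gt_three
  constructor
  · rw [Real.log_le_iff_le_exp (by positivity)]
    have : Real.exp 2 = Real.exp 1 * Real.exp 1 := by
      rw [← Real.exp_add]
      norm_num
    rw [this]
    nlinarith
  · exact Real.log_nonneg (by linarith)

/-- the size of `S = LL T` -/
private theorem resone_S {T : ℝ} (hT : Real.exp 6 ≤ T) :
    6 ≤ Real.log T ∧ 0 < T ∧ 2 * Real.pi * Real.exp 1 ≤ T ∧
    3 ≤ Real.log (T / (2 * Real.pi)) - 1 ∧ Real.log (T / (2 * Real.pi)) ≤ Real.log T ∧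
    Pool.Agent.Lib.MP_ec260d_ntB.LL T = T / (2 * Real.pi) * (Real.log (T / (2 * Real.pi)) - 1) ∧
    T * Real.log T / 16 ≤ Pool.Agent.Lib.MP_ec260d_ntB.LL T ∧
    Pool.Agent.Lib.MP_ec260d_ntB.LL T ≤ T * Real.log T := by
  obtain ⟨hp1, hp2⟩ := resone_two_pi
  have hpi := Real.pi_pos
  have hT0 : 0 < T := lt_of_lt_of_le (Real.exp_pos _) hT
  have hl : 6 ≤ Real.log T := by
    rw [Real.le_log_iff_exp_le hT0]
    exact hT
  have hL : Real.log (T / (2 * Real.pi)) = Real.log T - Real.log (2 * Real.pi) :=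
    Real.log_div hT0.ne' (by positivity)
  have hLL : Pool.Agent.Lib.MP_ec260d_ntB.LL T =
      T / (2 * Real.pi) * (Real.log (T / (2 * Real.pi)) - 1) := by
    unfold Pool.Agent.Lib.MP_ec260d_ntB.LL
    ring
  have h1 : Real.log T / 2 ≤ Real.log (T / (2 * Real.pi)) - 1 := by
    rw [hL]
    linarith
  refine ⟨hl, hT0, ?_, by linarith, by rw [hL]; linarith, hLL, ?_, ?_⟩
  · refine le_trans ?_ hT
    have h2 : 2 * Real.pi ≤ Real.exp 2 := by
      rw [← Real.log_le_iff_le_exp (by positivity)]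
      exact hp1
    calc 2 * Real.pi * Real.exp 1 ≤ Real.exp 2 * Real.exp 1 :=
          mul_le_mul_of_nonneg_right h2 (Real.exp_pos _).le
      _ = Real.exp 3 := by rw [← Real.exp_add]; norm_num
      _ ≤ Real.exp 6 := Real.exp_le_exp.2 (by norm_num)
  · rw [hLL]
    have h3 : T / (2 * Real.pi) * (Real.log T / 2) ≤
        T / (2 * Real.pi) * (Real.log (T / (2 * Real.pi)) - 1) :=
      mul_le_mul_of_nonneg_left h1 (by positivity)
    refine le_trans ?_ h3
    have h4 := Real.pi_lt_d2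
    rw [div_mul_div_comm, div_le_div_iff₀ (by norm_num) (by positivity)]
    have h5 : 0 < T * Real.log T := mul_pos hT0 (by linarith)
    nlinarith
  · rw [hLL]
    have h4 := Real.pi_gt_three
    have h5 : T / (2 * Real.pi) ≤ T := div_le_self hT0.le (by linarith)
    have h6 : Real.log (T / (2 * Real.pi)) - 1 ≤ Real.log T := by
      rw [hL]
      linarith
    exact mul_le_mul h5 h6 (by linarith) hT0.le

private theorem resone_range {T a : ℝ} (hT : Real.exp 6 ≤ T) (h1 : T ≤ a) (h2 : a ≤ 2 * T) :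
    Pool.Agent.Lib.MP_ec260d_ntB.LL T ≤ Pool.Agent.Lib.MP_ec260d_ntB.LL a ∧
    Pool.Agent.Lib.MP_ec260d_ntB.LL a ≤ 3 * Pool.Agent.Lib.MP_ec260d_ntB.LL T ∧
    Real.log (T / (2 * Real.pi)) ≤ Real.log (a / (2 * Real.pi)) := by
  obtain ⟨hl, hT0, -, hL3, -, hLL, -, -⟩ := resone_S hT
  have hpi := Real.pi_pos
  have ha0 : 0 < a := lt_of_lt_of_le hT0 h1
  have hlog : Real.log (T / (2 * Real.pi)) ≤ Real.log (a / (2 * Real.pi)) :=
    Real.log_le_log (by positivity) (by gcongr)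
  refine ⟨?_, ?_, hlog⟩
  · have h3 := resone_conv ha0 hT0
    have h4 : 0 ≤ Real.log (T / (2 * Real.pi)) * ((a - T) / (2 * Real.pi)) :=
      mul_nonneg (by linarith) (div_nonneg (by linarith) (by positivity))
    linarith
  · have h3 := resone_conv (show 0 < 2 * T by linarith) ha0
    have h4 : 0 ≤ Real.log (a / (2 * Real.pi)) * ((2 * T - a) / (2 * Real.pi)) :=
      mul_nonneg (by linarith) (div_nonneg (by linarith) (by positivity))
    have h5 : Pool.Agent.Lib.MP_ec260d_ntB.LL (2 * T) ≤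
        3 * Pool.Agent.Lib.MP_ec260d_ntB.LL T := by
      rw [hLL]
      unfold Pool.Agent.Lib.MP_ec260d_ntB.LL
      have h6 : 2 * T / (2 * Real.pi) = 2 * (T / (2 * Real.pi)) := by ring
      have h7 : Real.log (2 * (T / (2 * Real.pi))) =
          Real.log 2 + Real.log (T / (2 * Real.pi)) :=
        Real.log_mul two_ne_zero (by positivity)
      rw [h6, h7]
      have h8 := Real.log_two_lt_d9
      have h9 : 0 < T / (2 * Real.pi) := by positivity
      have h10 : 0 ≤ T / (2 * Real.pi) *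
          ((Real.log (T / (2 * Real.pi)) - 1) - 2 * Real.log 2) :=
        mul_nonneg h9.le (by linarith)
      linarith
    linarith

private theorem resone_Ei (S : ℝ) (hS : 0 ≤ S) {n : ℕ} (μ ρ : Fin (n + 1) → ℝ) (hμ : ∀ c, 0 ≤ μ c)
    (i : ℕ) (x : ℝ) (hx : 0 ≤ x) : HasDerivAt (Ei S μ ρ i) (Ei S μ ρ (i + 1) x) x := by
  have h1 : ∀ c ∈ (Finset.univ : Finset (Fin (n + 1))),
      HasDerivAt (fun x : ℝ => ρ c * Gi (omv S) S i (x + μ c))
        (ρ c * Gi (omv S) S (i + 1) (x + μ c)) x := by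
    intro c _
    have h2 := G_deriv (omv S) S hS i (x + μ c) (add_nonneg hx (hμ c))
    exact (h2.comp_add_const x (μ c)).const_mul (ρ c)
  exact (HasDerivAt.fun_sum h1).neg

private theorem resone_E0 (S : ℝ) (hS : 0 ≤ S) {n : ℕ} (μ ρ : Fin (n + 1) → ℝ) (x : ℝ) :
    Ei S μ ρ 0 x + omv S * ∑ c, ρ c = omv S ^ 2 * ∑ c, ρ c * (1 / omv (S * (x + μ c))) := by
  have h0 : omv S ≠ 0 := by
    have := omv_ge hS
    linarith
  unfold Ei
  rw [Finset.mul_sum, Finset.mul_sum, ← Finset.sum_neg_distrib, ← Finset.sum_add_distrib]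
  refine Finset.sum_congr rfl fun c _ => ?_
  unfold Gi
  rw [if_pos rfl, psn_zero]
  field_simp
  ring

theorem res_one (n : ℕ) (C₁ : ℝ) (hC₁ : 0 ≤ C₁) : ∃ C T₀ : ℝ, 0 ≤ C ∧ 2 ≤ T₀ ∧ ∀ T : ℝ, T₀ ≤ T →
    ∀ m ρ : Fin (n + 1) → ℝ, (∀ c, 0 ≤ m c ∧ m c ≤ C₁ * (T * Real.log T)) → ∀ γ r₀ τ : ℝ, 0 < γ → γ ≤ 1 → 0 < r₀ →
      0 < τ → (∀ c c', c ≠ c' → γ * (T * Real.log T) ≤ |m c - m c'|) → (∃ c, r₀ ≤ |ρ c|) →
        volume {a : ℝ | a ∈ Icc T (2 * T) ∧ |∑ c, ρ c * slp (m c) a| ≤ τ} ≤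
          ENNReal.ofReal (C * T * (Real.log T ^ 2 * τ / (r₀ * γ ^ n)) ^ ((1 : ℝ) / (n + 1))) := by
  have hX1 : (1 : ℝ) ≤ 16 * C₁ + 1 := by linarith
  obtain ⟨X, hXdef⟩ : ∃ X : ℝ, X = 16 * C₁ + 1 := ⟨_, rfl⟩
  rw [← hXdef] at hX1
  obtain ⟨c₀, A, S₀, hc₀, hA, hS₀, hnf⟩ := nonflat n X hX1
  obtain ⟨Cs, hCs, hsub⟩ := sub_meas (n + 1) (by omega) c₀ A hc₀
  refine ⟨X * (Cs + 1), max (Real.exp 6) (3 * S₀), by positivity, ?_, ?_⟩
  · refine le_trans ?_ (le_max_left _ _)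
    have := Real.add_one_le_exp 6
    linarith
  intro T hT m ρ hm γ r₀ τ hγ hγ1 hr₀ hτ hsep hρ
  have hT6 : Real.exp 6 ≤ T := (le_max_left _ _).trans hT
  have hTS : 3 * S₀ ≤ T := (le_max_right _ _).trans hT
  obtain ⟨hl, hT0, hTe, hL3, hLl, hLL, hSlow, hSup⟩ := resone_S hT6
  obtain ⟨-, -, hom⟩ := vv_LL hTe
  obtain ⟨S, hS⟩ : ∃ S : ℝ, S = Pool.Agent.Lib.MP_ec260d_ntB.LL T := ⟨_, rfl⟩
  rw [← hS] at hLL hSlow hSup hom
  have hTl : 0 < T * Real.log T := mul_pos hT0 (by linarith)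
  have hSpos : 0 < S := lt_of_lt_of_le (by positivity) hSlow
  have hSS₀ : S₀ ≤ S := by
    refine le_trans ?_ hSlow
    rw [le_div_iff₀ (by norm_num)]
    nlinarith
  obtain ⟨μ, hμ⟩ : ∃ μ : Fin (n + 1) → ℝ, μ = fun c => m c / S := ⟨_, rfl⟩
  have hμ0 : ∀ c, 0 ≤ μ c := by
    intro c
    rw [hμ]
    exact div_nonneg (hm c).1 hSpos.le
  have hμX : ∀ c, μ c ≤ X := by
    intro c
    rw [hμ]
    show m c / S ≤ X
    rw [div_le_iff₀ hSpos]
    have h1 := (hm c).2
    have h2 : C₁ * (T * Real.log T) ≤ C₁ * (16 * S) := mul_le_mul_of_nonneg_left (by linarith) hC₁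
    rw [hXdef]
    nlinarith
  have hμsep : ∀ c c', c ≠ c' → γ ≤ |μ c - μ c'| := by
    intro c c' hcc
    rw [hμ]
    show γ ≤ |m c / S - m c' / S|
    rw [← sub_div, abs_div, abs_of_pos hSpos, le_div_iff₀ hSpos]
    exact (mul_le_mul_of_nonneg_left hSup hγ.le).trans (hsep c c' hcc)
  obtain ⟨q, hq⟩ : ∃ q : ℝ, q = nq (QQ μ ρ) n := ⟨_, rfl⟩
  have hqlow : r₀ * γ ^ n ≤ X ^ n * q := by
    obtain ⟨c, hc⟩ := hρ
    have h1 := qq_lower n X hX1 μ ρ (fun c => by rw [abs_of_nonneg (hμ0 c)]; exact hμX c) γ hγ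
      hμsep c
    rw [← hq] at h1
    exact (mul_le_mul_of_nonneg_right hc (by positivity)).trans h1
  have hrg : 0 < r₀ * γ ^ n := by positivity
  have hXn : 0 < X ^ n := by positivity
  have hqpos : 0 < q := by
    by_contra hcon
    have : X ^ n * q ≤ 0 := mul_nonpos_of_nonneg_of_nonpos hXn.le (not_lt.1 hcon)
    linarith
  obtain ⟨Y, hY⟩ : ∃ Y : ℝ, Y = Real.log T ^ 2 * τ / (r₀ * γ ^ n) := ⟨_, rfl⟩
  have hY0 : 0 < Y := by
    rw [hY]
    have : 0 < Real.log T := by linarith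
    positivity
  obtain ⟨η, hη⟩ : ∃ η : ℝ, η = Real.log T ^ 2 * τ / q := ⟨_, rfl⟩
  have hη0 : 0 < η := by
    rw [hη]
    have : 0 < Real.log T := by linarith
    positivity
  have hηY : η ≤ X ^ n * Y := by
    rw [hη, hY, ← mul_div_assoc, div_le_div_iff₀ hqpos hrg]
    have h1 : 0 ≤ Real.log T ^ 2 * τ := by positivity
    calc Real.log T ^ 2 * τ * (r₀ * γ ^ n) ≤ Real.log T ^ 2 * τ * (X ^ n * q) :=
          mul_le_mul_of_nonneg_left hqlow h1
      _ = _ := by ring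
  have hn1 : (0 : ℝ) < (n : ℝ) + 1 := by positivity
  have hroot : (X ^ n * Y) ^ ((1 : ℝ) / (n + 1)) ≤ X * Y ^ ((1 : ℝ) / (n + 1)) := by
    rw [Real.mul_rpow hXn.le hY0.le]
    refine mul_le_mul_of_nonneg_right ?_ (by positivity)
    rw [← Real.rpow_natCast, ← Real.rpow_mul (by linarith)]
    calc X ^ ((n : ℝ) * (1 / (n + 1))) ≤ X ^ (1 : ℝ) := by
          refine Real.rpow_le_rpow_of_exponent_le hX1 ?_
          rw [mul_one_div, div_le_one hn1]
          linarith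
      _ = X := Real.rpow_one X
  rw [← hY]
  rcases le_or_gt η 1 with h1 | h1
  · obtain ⟨f, hf⟩ : ∃ f : ℕ → ℝ → ℝ, f = fun j x =>
        (Ei S μ ρ j x + (if j = 0 then omv S * ∑ c, ρ c else 0)) / q := ⟨_, rfl⟩
    have hder : ∀ j ≤ n + 1, ∀ x ∈ Icc (1 : ℝ) 3, HasDerivAt (f j) (f (j + 1) x) x := by
      intro j _ x hx
      rw [hf]
      have h2 := ((resone_Ei S hSpos.le μ ρ hμ0 j x (by linarith [hx.1])).add_const
        (if j = 0 then omv S * ∑ c, ρ c else 0)).div_const q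
      refine h2.congr_deriv ?_
      simp
    have hfj : ∀ j, 1 ≤ j → ∀ x, |f j x| = |Ei S μ ρ j x| / q := by
      intro j hj x
      rw [hf]
      show |(Ei S μ ρ j x + (if j = 0 then omv S * ∑ c, ρ c else 0)) / q| = _
      rw [if_neg (by omega), add_zero, abs_div, abs_of_pos hqpos]
    have hmeas := hsub f hder
      (by
        intro x hx j hj1 hj2
        rw [hfj j hj1, div_le_iff₀ hqpos, hq]
        exact (hnf S hSS₀ μ ρ (fun c => ⟨hμ0 c, hμX c⟩) x hx.1 hx.2).1 j hj1 (by omega))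
      (by
        intro x hx
        obtain ⟨j, hj1, hj2, hj3⟩ :=
          (hnf S hSS₀ μ ρ (fun c => ⟨hμ0 c, hμX c⟩) x hx.1 hx.2).2
        refine ⟨j, hj1, hj2, ?_⟩
        rw [hfj j hj1, le_div_iff₀ hqpos, hq]
        exact hj3) η hη0 h1
    have hsubset : {a : ℝ | a ∈ Icc T (2 * T) ∧ |∑ c, ρ c * slp (m c) a| ≤ τ} ⊆
        Icc T (2 * T) ∩ (fun a => Pool.Agent.Lib.MP_ec260d_ntB.LL a / S) ⁻¹'
          {x : ℝ | x ∈ Icc (1 : ℝ) 3 ∧ |f 0 x| ≤ η} := by
      rintro a ⟨ha, hsum⟩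
      obtain ⟨r1, r2, r3⟩ := resone_range hT6 ha.1 ha.2
      rw [← hS] at r1 r2
      refine ⟨ha, ?_⟩
      show Pool.Agent.Lib.MP_ec260d_ntB.LL a / S ∈ Icc (1 : ℝ) 3 ∧
        |f 0 (Pool.Agent.Lib.MP_ec260d_ntB.LL a / S)| ≤ η
      refine ⟨⟨?_, ?_⟩, ?_⟩
      · rw [le_div_iff₀ hSpos]
        linarith
      · rw [div_le_iff₀ hSpos]
        exact r2
      · rw [hf]
        show |(Ei S μ ρ 0 (Pool.Agent.Lib.MP_ec260d_ntB.LL a / S) +
          (if 0 = 0 then omv S * ∑ c, ρ c else 0)) / q| ≤ η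
        rw [if_pos rfl, resone_E0 S hSpos.le, abs_div, abs_of_pos hqpos, hη]
        refine div_le_div_of_nonneg_right ?_ hqpos.le
        have e1 : ∑ c, ρ c * slp (m c) a = Real.log (a / (2 * Real.pi)) *
            ∑ c, ρ c * (1 / omv (S * (Pool.Agent.Lib.MP_ec260d_ntB.LL a / S + μ c))) := by
          rw [Finset.mul_sum]
          refine Finset.sum_congr rfl fun c _ => ?_
          unfold slp
          have e2 : S * (Pool.Agent.Lib.MP_ec260d_ntB.LL a / S + μ c) =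
              Pool.Agent.Lib.MP_ec260d_ntB.LL a + m c := by
            rw [hμ]
            field_simp
          rw [e2]
          ring
        obtain ⟨W, hW⟩ : ∃ W : ℝ, W = ∑ c, ρ c * (1 / omv (S *
            (Pool.Agent.Lib.MP_ec260d_ntB.LL a / S + μ c))) := ⟨_, rfl⟩
        rw [← hW] at e1 ⊢
        rw [e1, abs_mul, abs_of_pos (show 0 < Real.log (a / (2 * Real.pi)) by linarith)] at hsum
        rw [abs_mul, abs_of_nonneg (sq_nonneg _), hom]
        have e3 : Real.log (T / (2 * Real.pi)) * |W| ≤ τ :=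
          (mul_le_mul_of_nonneg_right r3 (abs_nonneg _)).trans hsum
        have e4 : Real.log (T / (2 * Real.pi)) ^ 2 * |W| =
            Real.log (T / (2 * Real.pi)) * (Real.log (T / (2 * Real.pi)) * |W|) := by ring
        rw [e4]
        calc Real.log (T / (2 * Real.pi)) * (Real.log (T / (2 * Real.pi)) * |W|) ≤
            Real.log T ^ 2 * τ := by
              refine mul_le_mul ?_ e3 (mul_nonneg (by linarith) (abs_nonneg _)) (by positivity)
              nlinarith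
          _ = _ := rfl
    refine (measure_mono hsubset).trans ?_
    have hexp := vol_expand (fun a => Pool.Agent.Lib.MP_ec260d_ntB.LL a / S) (Icc T (2 * T))
      {x : ℝ | x ∈ Icc (1 : ℝ) 3 ∧ |f 0 x| ≤ η} T⁻¹ (inv_pos.2 hT0) (by
        have key : ∀ a b : ℝ, T ≤ b → b ≤ a → T⁻¹ * (a - b) ≤
            Pool.Agent.Lib.MP_ec260d_ntB.LL a / S - Pool.Agent.Lib.MP_ec260d_ntB.LL b / S := by
          intro a b hb hab
          have hb0 : 0 < b := by linarith
          have h2 := resone_conv (show 0 < a by linarith) hb0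
          have hpi := Real.pi_pos
          have h3 : Real.log (T / (2 * Real.pi)) ≤ Real.log (b / (2 * Real.pi)) :=
            Real.log_le_log (by positivity) (by gcongr)
          rw [← sub_div, le_div_iff₀ hSpos]
          refine le_trans ?_ h2
          have h4 : T⁻¹ * (a - b) * S = (Real.log (T / (2 * Real.pi)) - 1) *
              ((a - b) / (2 * Real.pi)) := by
            rw [hLL]
            field_simp
          rw [h4]
          exact mul_le_mul_of_nonneg_right (by linarith)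
            (div_nonneg (by linarith) (by positivity))
        intro x hx y hy
        rcases le_total y x with h | h
        · have h2 := key x y hy.1 h
          rw [abs_of_nonneg (sub_nonneg.2 h)]
          exact h2.trans (le_abs_self _)
        · have h2 := key y x hx.1 h
          rw [abs_sub_comm, abs_of_nonneg (sub_nonneg.2 h),
            abs_sub_comm (Pool.Agent.Lib.MP_ec260d_ntB.LL x / S)]
          exact h2.trans (le_abs_self _))
    rw [inv_inv] at hexp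
    refine hexp.trans ?_
    refine (mul_le_mul_right hmeas _).trans ?_
    rw [← ENNReal.ofReal_mul hT0.le]
    refine ENNReal.ofReal_le_ofReal ?_
    have h2 : η ^ ((1 : ℝ) / ((n + 1 : ℕ) : ℝ)) ≤ X * Y ^ ((1 : ℝ) / (n + 1)) := by
      push_cast
      exact (Real.rpow_le_rpow hη0.le hηY (by positivity)).trans hroot
    have h3 : 0 ≤ X * Y ^ ((1 : ℝ) / (n + 1)) := by positivity
    calc T * (Cs * η ^ ((1 : ℝ) / ((n + 1 : ℕ) : ℝ))) ≤ T * (Cs * (X * Y ^ ((1 : ℝ) / (n + 1)))) :=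
          mul_le_mul_of_nonneg_left (mul_le_mul_of_nonneg_left h2 hCs) hT0.le
      _ ≤ X * (Cs + 1) * T * Y ^ ((1 : ℝ) / (n + 1)) := by
          have h4 : 0 ≤ T * (X * Y ^ ((1 : ℝ) / (n + 1))) := by positivity
          linarith
  · have h2 : 1 ≤ X * Y ^ ((1 : ℝ) / (n + 1)) := by
      refine le_trans ?_ hroot
      exact Real.one_le_rpow (h1.le.trans hηY) (by positivity)
    have h3 : {a : ℝ | a ∈ Icc T (2 * T) ∧ |∑ c, ρ c * slp (m c) a| ≤ τ} ⊆ Icc T (2 * T) :=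
      fun a ha => ha.1
    refine (measure_mono h3).trans ?_
    rw [Real.volume_Icc]
    refine ENNReal.ofReal_le_ofReal ?_
    have h4 : 0 ≤ Cs * T * (X * Y ^ ((1 : ℝ) / (n + 1))) := by positivity
    have h5 : T * 1 ≤ T * (X * Y ^ ((1 : ℝ) / (n + 1))) := mul_le_mul_of_nonneg_left h2 hT0.le
    linarith

end Pool.Agent.Lib.MP_ec260d_ntD
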