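import Mathlib
import Pool.Agent.Lib.MP_ec260d_ntD.R.ResOne

/-!
# JOB R/Res: the slopes are rarely resonant (about 180 lines)

For each pair `(A, B)` with `A ≠ B` put `ρ_c = log A_c - log B_c`; for `c` with `A_c ≠ B_c`: `|ρ_c| ≥ 1/max (A_c, B_c) ≥ T^(-κ) =: r₀` (`log (y/x) ≥ 1 - x/y ≥ 1/y` for integers `1 ≤ x < y`).  Apply `res_one` with `γ = T^(-κ)/log T`, `τ = T^(-κ₂)`:
measure `≤ C T (log T^2 T^(-κ₂) T^κ T^(nκ) (log T)^n)^(1/(n+1)) = C T^(1 - κ₂/(n+1) + κ) (log T)^((n+2)/(n+1))`.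
There are at most `(T^κ)^(2(n+1))` pairs `(A, B)` (each `A_c`, `B_c` is an integer in `[1, T^κ]`).  Union bound: `C T^(1 - κ₂/(n+1) + κ + 2(n+1)κ) (log T)^2 ≤ T^(1 - κ)` for large `T`, since `κ₂/(n+1) ≥ 8 (n+3) κ... > 2κ + 2(n+1)κ` (`8 (n+3)^2/(n+1) > 2n + 5`).
-/

namespace Pool.Agent.Lib.MP_ec260d_ntD

open Real Set MeasureTheory

private theorem Res_log1 {A B : ℕ} {Y : ℝ} (hA : 1 ≤ A) (hBY : (B : ℝ) ≤ Y) (hlt : A < B) :
    Y⁻¹ ≤ Real.log B - Real.log A := by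
  have hA0 : (0 : ℝ) < A := by exact_mod_cast hA
  have hB0 : (0 : ℝ) < B := by exact_mod_cast (lt_of_lt_of_le (by omega : 0 < A) hlt.le)
  have h1 := Real.log_le_sub_one_of_pos (div_pos hA0 hB0)
  rw [Real.log_div hA0.ne' hB0.ne'] at h1
  have h2 : (A : ℝ) + 1 ≤ B := by exact_mod_cast hlt
  have h3 : (A : ℝ) / B - 1 ≤ -(B : ℝ)⁻¹ := by
    have e : (A : ℝ) / B - 1 - -(B : ℝ)⁻¹ = ((A : ℝ) + 1 - B) / B := by
      field_simp
      ring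
    have h4 : ((A : ℝ) + 1 - B) / B ≤ 0 := div_nonpos_of_nonpos_of_nonneg (by linarith) hB0.le
    linarith
  have h4 : Y⁻¹ ≤ (B : ℝ)⁻¹ := inv_anti₀ hB0 hBY
  linarith

private theorem Res_log {A B : ℕ} {Y : ℝ} (hA : 1 ≤ A) (hB : 1 ≤ B) (hAY : (A : ℝ) ≤ Y)
    (hBY : (B : ℝ) ≤ Y) (hne : A ≠ B) : Y⁻¹ ≤ |Real.log A - Real.log B| := by
  rcases lt_or_gt_of_ne hne with h | h
  · have h1 := Res_log1 hA hBY h
    rw [abs_sub_comm]
    exact h1.trans (le_abs_self _)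
  · have h1 := Res_log1 hB hAY h
    exact h1.trans (le_abs_self _)

private theorem Res_card (n : ℕ) {y : ℝ} (hy : 0 ≤ y) :
    ((((Fintype.piFinset (fun _ : Fin (n + 1) => Finset.Icc 1 ⌊y⌋₊)) ×ˢ
      (Fintype.piFinset (fun _ : Fin (n + 1) => Finset.Icc 1 ⌊y⌋₊))).filter
        (fun p => p.1 ≠ p.2)).card : ℝ) ≤ y ^ (2 * n + 2) := by
  have h1 := Finset.card_filter_le ((Fintype.piFinset (fun _ : Fin (n + 1) => Finset.Icc 1 ⌊y⌋₊)) ×ˢ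
      (Fintype.piFinset (fun _ : Fin (n + 1) => Finset.Icc 1 ⌊y⌋₊))) (fun p => p.1 ≠ p.2)
  rw [Finset.card_product, Fintype.card_piFinset, Finset.prod_const, Finset.card_univ,
    Fintype.card_fin, Nat.card_Icc, Nat.add_sub_cancel, ← pow_add] at h1
  have h2 : ((((Fintype.piFinset (fun _ : Fin (n + 1) => Finset.Icc 1 ⌊y⌋₊)) ×ˢ
      (Fintype.piFinset (fun _ : Fin (n + 1) => Finset.Icc 1 ⌊y⌋₊))).filter
        (fun p => p.1 ≠ p.2)).card : ℝ) ≤ ((⌊y⌋₊ ^ (n + 1 + (n + 1)) : ℕ) : ℝ) := by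
    exact_mod_cast h1
  refine h2.trans ?_
  rw [Nat.cast_pow, show n + 1 + (n + 1) = 2 * n + 2 by ring]
  exact pow_le_pow_left₀ (Nat.cast_nonneg _) (Nat.floor_le hy) _

private theorem Res_Q (n : ℕ) {x L t : ℝ} (hx : 0 < x) (hx1 : x ≤ 1) (hL : 1 ≤ L) (ht0 : 0 ≤ t)
    (ht : t ≤ x ^ (8 * (n + 3) ^ 2)) :
    (L ^ 2 * t / (x * (x / L) ^ n)) ^ ((1 : ℝ) / (n + 1)) ≤ L ^ 2 * x ^ (2 * n + 4) := by
  have hL0 : 0 < L := by linarith
  have h1 : L ^ 2 * t / (x * (x / L) ^ n) ≤ (L ^ 2 * x ^ (2 * n + 4)) ^ (n + 1) := by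
    have h2 : x * (x / L) ^ n = x ^ (n + 1) / L ^ n := by
      rw [div_pow, pow_succ]
      ring
    rw [h2, div_le_iff₀ (by positivity)]
    have h3 : (L ^ 2 * x ^ (2 * n + 4)) ^ (n + 1) * (x ^ (n + 1) / L ^ n) =
        L ^ (n + 2) * x ^ ((2 * n + 4) * (n + 1) + (n + 1)) := by
      have h4 : L ^ (2 * (n + 1)) = L ^ (n + 2) * L ^ n := by
        rw [← pow_add]
        congr 1
        ring
      rw [mul_pow, ← pow_mul, ← pow_mul, h4]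
      field_simp
      ring
    rw [h3]
    have h5 : t ≤ x ^ ((2 * n + 4) * (n + 1) + (n + 1)) := by
      refine ht.trans (pow_le_pow_of_le_one hx.le hx1 ?_)
      nlinarith
    have h6 : L ^ 2 ≤ L ^ (n + 2) := pow_le_pow_right₀ hL (by omega)
    exact mul_le_mul h6 h5 ht0 (by positivity)
  have h0 : 0 ≤ L ^ 2 * t / (x * (x / L) ^ n) := by positivity
  have h7 : 0 ≤ L ^ 2 * x ^ (2 * n + 4) := by positivity
  have h8 : (0 : ℝ) ≤ (1 : ℝ) / (n + 1) := by positivity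
  refine (Real.rpow_le_rpow h0 h1 h8).trans (le_of_eq ?_)
  have e : (1 : ℝ) / (n + 1) = (((n + 1 : ℕ) : ℝ))⁻¹ := by
    push_cast
    rw [one_div]
  rw [e, Real.pow_rpow_inv_natCast h7 (by omega)]

private theorem Res_ev {C κ : ℝ} (hC : 0 ≤ C) (hκ : 0 < κ) :
    ∃ T₁ : ℝ, ∀ T : ℝ, T₁ ≤ T → C * Real.log T ^ 2 ≤ T ^ κ := by
  have h1 := isLittleO_log_rpow_rpow_atTop 2 hκ
  have h2 := h1.bound (c := (C + 1)⁻¹) (by positivity)
  obtain ⟨T₁, hT₁⟩ := Filter.eventually_atTop.1 h2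
  refine ⟨max T₁ 1, fun T hT => ?_⟩
  have h3 := hT₁ T ((le_max_left _ _).trans hT)
  have hT1 : 1 ≤ T := (le_max_right _ _).trans hT
  have h4 : 0 < T ^ κ := Real.rpow_pos_of_pos (by linarith) κ
  rw [Real.norm_eq_abs, Real.norm_eq_abs, abs_of_pos h4, Real.rpow_two, abs_of_nonneg (sq_nonneg _)] at h3
  have h5 : (C + 1) * Real.log T ^ 2 ≤ T ^ κ := by
    have h6 := mul_le_mul_of_nonneg_left h3 (by positivity : 0 ≤ C + 1)
    rwa [← mul_assoc, mul_inv_cancel₀ (by positivity), one_mul] at h6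
  nlinarith [sq_nonneg (Real.log T)]

theorem res (n : ℕ) (C₁ κ κ₂ : ℝ) (hC₁ : 0 ≤ C₁) (hκ : 0 < κ) (hκ₂ : 8 * ((n : ℝ) + 3) ^ 2 * κ ≤ κ₂) :
    ∃ T₀ : ℝ, 2 ≤ T₀ ∧ ∀ T : ℝ, T₀ ≤ T → ∀ m : Fin (n + 1) → ℝ, (∀ c, 0 ≤ m c ∧ m c ≤ C₁ * (T * Real.log T)) →
      (∀ c c', c ≠ c' → T ^ (1 - κ) ≤ |m c - m c'|) →
        volume {a : ℝ | a ∈ Icc T (2 * T) ∧ ∃ A B : Fin (n + 1) → ℕ,
          (∀ c, 1 ≤ A c ∧ 1 ≤ B c ∧ (A c : ℝ) ≤ T ^ κ ∧ (B c : ℝ) ≤ T ^ κ) ∧ A ≠ B ∧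
          |∑ c, (Real.log (A c) - Real.log (B c)) * slp (m c) a| ≤ T ^ (-κ₂)} ≤
          ENNReal.ofReal (T ^ (1 - κ)) := by
  classical
  obtain ⟨C, T₀, hC, hT₀, hres⟩ := res_one n C₁ hC₁
  obtain ⟨T₁, hT₁⟩ := Res_ev hC hκ
  refine ⟨max (max T₀ T₁) (Real.exp 1), (hT₀.trans (le_max_left _ _)).trans (le_max_left _ _),
    fun T hT m hm hsep => ?_⟩
  have hT0 : T₀ ≤ T := ((le_max_left _ _).trans (le_max_left _ _)).trans hT
  have hT1 := hT₁ T (((le_max_right _ _).trans (le_max_left _ _)).trans hT)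
  have hTe : Real.exp 1 ≤ T := (le_max_right _ _).trans hT
  have hT2 : 2 ≤ T := hT₀.trans hT0
  have hTp : 0 < T := by linarith
  have hL : 1 ≤ Real.log T := by
    rw [Real.le_log_iff_exp_le hTp]
    exact hTe
  set L : ℝ := Real.log T with hLdef
  have hL0 : 0 < L := by linarith
  set x : ℝ := T ^ (-κ) with hxdef
  set y : ℝ := T ^ κ with hydef
  have hx : 0 < x := Real.rpow_pos_of_pos hTp _
  have hy : 0 < y := Real.rpow_pos_of_pos hTp _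
  have hxy : x = y⁻¹ := by
    rw [hxdef, hydef, Real.rpow_neg hTp.le]
  have hy1 : 1 ≤ y := Real.one_le_rpow (by linarith) hκ.le
  have hx1 : x ≤ 1 := by
    rw [hxy]
    exact inv_le_one_of_one_le₀ hy1
  have hTx : T ^ (1 - κ) = T * x := by
    rw [sub_eq_add_neg, Real.rpow_add hTp, Real.rpow_one]
  have ht : T ^ (-κ₂) ≤ x ^ (8 * (n + 3) ^ 2) := by
    have h1 : T ^ (-κ₂) ≤ T ^ (-κ * ((8 * (n + 3) ^ 2 : ℕ) : ℝ)) := by
      refine Real.rpow_le_rpow_of_exponent_le (by linarith) ?_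
      push_cast
      linarith
    rwa [Real.rpow_mul_natCast hTp.le] at h1
  have ht0 : 0 < T ^ (-κ₂) := Real.rpow_pos_of_pos hTp _
  have hQ := Res_Q n hx hx1 hL ht0.le ht
  have hγ : 0 < x / L := by positivity
  have hγ1 : x / L ≤ 1 := by
    rw [div_le_one hL0]
    linarith
  have hone : ∀ A B : Fin (n + 1) → ℕ, (∀ c, 1 ≤ A c ∧ 1 ≤ B c ∧ (A c : ℝ) ≤ y ∧ (B c : ℝ) ≤ y) →
      A ≠ B → volume {a : ℝ | a ∈ Icc T (2 * T) ∧
        |∑ c, (Real.log (A c) - Real.log (B c)) * slp (m c) a| ≤ T ^ (-κ₂)} ≤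
          ENNReal.ofReal (C * T * (L ^ 2 * x ^ (2 * n + 4))) := by
    intro A B hAB hne
    obtain ⟨c, hc⟩ := Function.ne_iff.1 hne
    refine (hres T hT0 m (fun c => Real.log (A c) - Real.log (B c)) hm (x / L) x (T ^ (-κ₂)) hγ hγ1
      hx ht0 ?_ ⟨c, ?_⟩).trans ?_
    · intro c c' hcc
      have e : x / L * (T * Real.log T) = T ^ (1 - κ) := by
        rw [hTx, ← hLdef]
        field_simp
      rw [e]
      exact hsep c c' hcc
    · obtain ⟨h1, h2, h3, h4⟩ := hAB c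
      rw [hxy]
      exact Res_log h1 h2 h3 h4 hc
    · refine ENNReal.ofReal_le_ofReal ?_
      exact mul_le_mul_of_nonneg_left hQ (by positivity)
  have hsub : {a : ℝ | a ∈ Icc T (2 * T) ∧ ∃ A B : Fin (n + 1) → ℕ,
          (∀ c, 1 ≤ A c ∧ 1 ≤ B c ∧ (A c : ℝ) ≤ y ∧ (B c : ℝ) ≤ y) ∧ A ≠ B ∧
          |∑ c, (Real.log (A c) - Real.log (B c)) * slp (m c) a| ≤ T ^ (-κ₂)} ⊆
      ⋃ p ∈ (((Fintype.piFinset (fun _ : Fin (n + 1) => Finset.Icc 1 ⌊y⌋₊)) ×ˢ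
      (Fintype.piFinset (fun _ : Fin (n + 1) => Finset.Icc 1 ⌊y⌋₊))).filter
        (fun p => p.1 ≠ p.2)), {a : ℝ | a ∈ Icc T (2 * T) ∧
        |∑ c, (Real.log (p.1 c) - Real.log (p.2 c)) * slp (m c) a| ≤ T ^ (-κ₂)} := by
    rintro a ⟨ha, A, B, hAB, hne, habs⟩
    refine Set.mem_iUnion₂.2 ⟨(A, B), Finset.mem_filter.2 ⟨Finset.mem_product.2 ⟨?_, ?_⟩, hne⟩, ha, habs⟩
    · refine Fintype.mem_piFinset.2 fun c => Finset.mem_Icc.2 ⟨(hAB c).1, ?_⟩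
      exact Nat.le_floor (hAB c).2.2.1
    · refine Fintype.mem_piFinset.2 fun c => Finset.mem_Icc.2 ⟨(hAB c).2.1, ?_⟩
      exact Nat.le_floor (hAB c).2.2.2
  refine (measure_mono hsub).trans ((measure_biUnion_finset_le _ _).trans ?_)
  have hsum := Finset.sum_le_card_nsmul (((Fintype.piFinset (fun _ : Fin (n + 1) => Finset.Icc 1 ⌊y⌋₊)) ×ˢ
      (Fintype.piFinset (fun _ : Fin (n + 1) => Finset.Icc 1 ⌊y⌋₊))).filter
        (fun p => p.1 ≠ p.2)) (fun p => volume {a : ℝ | a ∈ Icc T (2 * T) ∧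
        |∑ c, (Real.log (p.1 c) - Real.log (p.2 c)) * slp (m c) a| ≤ T ^ (-κ₂)})
      (ENNReal.ofReal (C * T * (L ^ 2 * x ^ (2 * n + 4)))) (fun p hp => by
        obtain ⟨h1, h2⟩ := Finset.mem_filter.1 hp
        obtain ⟨h3, h4⟩ := Finset.mem_product.1 h1
        rw [Fintype.mem_piFinset] at h3 h4
        refine hone p.1 p.2 (fun c => ?_) h2
        have h5 := Finset.mem_Icc.1 (h3 c)
        have h6 := Finset.mem_Icc.1 (h4 c)
        have h7 := Nat.floor_le hy.le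
        exact ⟨h5.1, h6.1, (Nat.cast_le.2 h5.2).trans h7, (Nat.cast_le.2 h6.2).trans h7⟩)
  refine hsum.trans ?_
  rw [nsmul_eq_mul, ← ENNReal.ofReal_natCast, ← ENNReal.ofReal_mul (Nat.cast_nonneg _)]
  refine ENNReal.ofReal_le_ofReal ?_
  have hcard := Res_card n hy.le
  refine (mul_le_mul_of_nonneg_right hcard (by positivity)).trans ?_
  have hxyp : y ^ (2 * n + 2) * x ^ (2 * n + 4) = x ^ 2 := by
    rw [hxy, show 2 * n + 4 = (2 * n + 2) + 2 by ring, pow_add (y⁻¹), ← mul_assoc, ← mul_pow,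
      mul_inv_cancel₀ hy.ne', one_pow, one_mul]
  have e1 : y ^ (2 * n + 2) * (C * T * (L ^ 2 * x ^ (2 * n + 4))) = C * L ^ 2 * (T * x ^ 2) := by
    rw [← hxyp]
    ring
  rw [e1, hTx]
  refine (mul_le_mul_of_nonneg_right hT1 (by positivity)).trans (le_of_eq ?_)
  rw [hxy]
  field_simp

end Pool.Agent.Lib.MP_ec260d_ntD
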